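import Pool.Agent.HYP.Targets

set_option autoImplicit false

/-!
# ELIM: multilinear elimination by a dimension count
-/

namespace Pool.Agent.HYP

open Finset
open scoped BigOperators

namespace ELIM_

/-- span of the monomials with exponents at most `e` -/
noncomputable def Mo {k : ℕ} (θ : Fin k → ℂ) (e : ℕ) : Submodule ℚ ℂ :=
  Submodule.span ℚ {z | ∃ α : Fin k → ℕ, (∀ i, α i ≤ e) ∧ z = ∏ i, θ i ^ α i}

/-- span of the values at the indices different from `u` -/
noncomputable def V {I : Type} (y : I → ℂ) (u : I) : Submodule ℚ ℂ :=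
  Submodule.span ℚ {z | ∃ w, w ≠ u ∧ z = y w}

/-- span of the products over `t` -/
noncomputable def VV {s : ℕ} {I : Type} (Y : Fin s → I → ℂ) (u : Fin s → I) (t : Finset (Fin s)) :
    Submodule ℚ ℂ :=
  Submodule.span ℚ {z | ∃ w : Fin s → I, (∀ i ∈ t, w i ≠ u i) ∧ z = ∏ i ∈ t, Y i (w i)}

variable {k : ℕ} {θ : Fin k → ℂ}

theorem Mo_mul (e f : ℕ) : Mo θ e * Mo θ f ≤ Mo θ (e + f) := by
  unfold Mo
  rw [Submodule.span_mul_span]
  apply Submodule.span_mono
  rintro _ ⟨_, ⟨α, hα, rfl⟩, _, ⟨β, hβ, rfl⟩, rfl⟩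
  refine ⟨fun i => α i + β i, fun i => add_le_add (hα i) (hβ i), ?_⟩
  simp only [pow_add, Finset.prod_mul_distrib]

theorem Mo_mono {e f : ℕ} (h : e ≤ f) : Mo θ e ≤ Mo θ f := by
  apply Submodule.span_mono
  rintro z ⟨α, hα, rfl⟩
  exact ⟨α, fun i => (hα i).trans h, rfl⟩

theorem mono_mem {e : ℕ} {α : Fin k → ℕ} (h : ∀ i, α i ≤ e) : ∏ i, θ i ^ α i ∈ Mo θ e :=
  Submodule.subset_span ⟨α, h, rfl⟩

theorem one_mem (e : ℕ) : (1 : ℂ) ∈ Mo θ e := by
  have h := mono_mem (θ := θ) (e := e) (α := fun _ => 0) (fun i => Nat.zero_le _)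
  simpa using h

theorem mm {P P' R R' : Submodule ℚ ℂ} (h : P ≤ P') (h' : R ≤ R') {z : ℂ} (hz : z ∈ P * R) :
    z ∈ P' * R' :=
  (mul_le_mul' h h' : P * R ≤ P' * R') hz

theorem V_mul_VV {s : ℕ} {I : Type} (Y : Fin s → I → ℂ) (u : Fin s → I) (t : Finset (Fin s))
    (a : Fin s) (ha : a ∉ t) : V (Y a) (u a) * VV Y u t ≤ VV Y u (insert a t) := by
  classical
  unfold V VV
  rw [Submodule.span_mul_span]
  apply Submodule.span_mono
  rintro _ ⟨_, ⟨w0, hw0, rfl⟩, _, ⟨w, hw, rfl⟩, rfl⟩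
  refine ⟨Function.update w a w0, ?_, ?_⟩
  · intro i hi
    rcases Finset.mem_insert.1 hi with h | h
    · subst h; rw [Function.update_self]; exact hw0
    · have hne : i ≠ a := fun e => ha (e ▸ h)
      rw [Function.update_of_ne hne]; exact hw i h
  · simp only
    rw [Finset.prod_insert ha, Function.update_self]
    congr 1
    refine Finset.prod_congr rfl fun i hi => ?_
    have hne : i ≠ a := fun e => ha (e ▸ hi)
    rw [Function.update_of_ne hne]

/-- product over a set of indices -/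
theorem prod_red {s G : ℕ} {I : Type} (Y Z : Fin s → I → ℂ) (u : Fin s → I) (b : Fin s → ℂ)
    (h : ∀ i w, b i * Z i w ∈ Mo θ G * V (Y i) (u i)) (J : Fin s → I) (t : Finset (Fin s)) :
    ∏ i ∈ t, (b i * Z i (J i)) ∈ Mo θ (t.card * G) * VV Y u t := by
  classical
  induction t using Finset.induction_on with
  | empty =>
    rw [Finset.prod_empty, ← one_mul (1 : ℂ)]
    refine Submodule.mul_mem_mul (one_mem _) (Submodule.subset_span ⟨J, ?_, ?_⟩)
    · intro i hi; exact absurd hi (Finset.notMem_empty i)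
    · simp
  | insert a t ha ih =>
    rw [Finset.prod_insert ha]
    have h1 := Submodule.mul_mem_mul (h a (J a)) ih
    rw [mul_mul_mul_comm] at h1
    refine mm ((Mo_mul _ _).trans (Mo_mono ?_)) (V_mul_VV Y u t a ha) h1
    rw [Finset.card_insert_of_notMem ha]
    exact le_of_eq (by ring)

/-- the finite dimensional space -/
theorem fin_span {s E : ℕ} {I : Type} (Y : Fin s → I → ℂ) (u : Fin s → I) :
    Mo θ E * VV Y u Finset.univ ≤ Submodule.span ℚ (Set.range
      (fun p : (Fin k → Fin (E + 1)) × (∀ i, {w : I // w ≠ u i}) =>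
        (∏ i, θ i ^ (p.1 i : ℕ)) * ∏ i, Y i (p.2 i : I))) := by
  unfold Mo VV
  rw [Submodule.span_mul_span]
  apply Submodule.span_mono
  rintro _ ⟨_, ⟨α, hα, rfl⟩, _, ⟨w, hw, rfl⟩, rfl⟩
  exact ⟨(fun i => ⟨α i, Nat.lt_succ_iff.2 (hα i)⟩, fun i => ⟨w i, hw i (Finset.mem_univ i)⟩), rfl⟩

/-- the abstract statement -/
theorem core {s G : ℕ} {I : Type} [Fintype I] [DecidableEq I] (Y Z : Fin s → I → ℂ)
    (u : Fin s → I) (b : Fin s → ℂ) (hb : ∀ i, b i ≠ 0)
    (h : ∀ i w, b i * Z i w ∈ Mo θ G * V (Y i) (u i))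
    (hs : (s * G + 1) ^ k * (Fintype.card I - 1) ^ s < Fintype.card I ^ s) :
    ∃ c : (Fin s → I) → ℤ, c ≠ 0 ∧ ∑ J, (c J : ℂ) * ∏ i, Z i (J i) = 0 := by
  set bb : ℂ := ∏ i, b i with hbb
  have hbb0 : bb ≠ 0 := Finset.prod_ne_zero_iff.2 fun i _ => hb i
  set E := s * G with hE
  set F : (Fin k → Fin (E + 1)) × (∀ i, {w : I // w ≠ u i}) → ℂ :=
    fun p => (∏ i, θ i ^ (p.1 i : ℕ)) * ∏ i, Y i (p.2 i : I) with hF
  set W : Submodule ℚ ℂ := Submodule.span ℚ (Set.range F) with hW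
  have hmem : ∀ J : Fin s → I, bb * ∏ i, Z i (J i) ∈ W := by
    intro J
    rw [hbb, ← Finset.prod_mul_distrib]
    have h1 := prod_red Y Z u b h J Finset.univ
    rw [Finset.card_univ, Fintype.card_fin] at h1
    exact fin_span Y u h1
  set v : (Fin s → I) → W := fun J => ⟨_, hmem J⟩ with hv
  have : FiniteDimensional ℚ W := FiniteDimensional.span_of_finite ℚ (Set.finite_range F)
  have hdim : Module.finrank ℚ W < Fintype.card (Fin s → I) := by
    have h1 : Module.finrank ℚ W ≤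
        Fintype.card ((Fin k → Fin (E + 1)) × (∀ i, {w : I // w ≠ u i})) :=
      finrank_range_le_card F
    have h0 : ∀ i, Fintype.card {w : I // w ≠ u i} = Fintype.card I - 1 := by
      intro i
      rw [Fintype.card_subtype_compl (fun w => w = u i), Fintype.card_subtype_eq]
    have h2 : Fintype.card ((Fin k → Fin (E + 1)) × (∀ i, {w : I // w ≠ u i})) =
        (E + 1) ^ k * (Fintype.card I - 1) ^ s := by
      rw [Fintype.card_prod, Fintype.card_pi, Fintype.card_pi]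
      simp only [h0, Fintype.card_fin, Finset.prod_const, Finset.card_univ]
    have h3 : Fintype.card (Fin s → I) = Fintype.card I ^ s := by
      rw [Fintype.card_pi]
      simp
    rw [h3]
    rw [h2] at h1
    exact lt_of_le_of_lt h1 hs
  have hli : ¬ LinearIndependent ℚ v := by
    intro h
    have := h.fintype_card_le_finrank
    omega
  obtain ⟨g, hg, j0, hj0⟩ := Fintype.not_linearIndependent_iff.1 hli
  obtain ⟨m, hm⟩ := IsLocalization.exist_integer_multiples_of_finite (nonZeroDivisors ℤ) g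
  choose c hc using hm
  have hc' : ∀ J, ((c J : ℤ) : ℚ) = ((m : ℤ) : ℚ) * g J := by
    intro J
    have := hc J
    rw [eq_intCast] at this
    rw [this, zsmul_eq_mul]
  have hm0 : ((m : ℤ) : ℚ) ≠ 0 := by
    exact_mod_cast nonZeroDivisors.coe_ne_zero m
  refine ⟨c, ?_, ?_⟩
  · intro h0
    have := hc' j0
    rw [h0] at this
    simp only [Pi.zero_apply, Int.cast_zero] at this
    rcases mul_eq_zero.1 this.symm with h | h
    · exact hm0 h
    · exact hj0 h
  · have h1 := congrArg (fun w : W => (w : ℂ)) hg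
    simp only [Submodule.coe_sum, Submodule.coe_smul, ZeroMemClass.coe_zero, hv] at h1
    have h2 : bb * ∑ J, (c J : ℂ) * ∏ i, Z i (J i) = 0 := by
      have h3 : ∀ J, (c J : ℂ) = ((m : ℤ) : ℂ) * (g J : ℂ) := by
        intro J
        have := congrArg (fun r : ℚ => (r : ℂ)) (hc' J)
        push_cast at this
        exact this
      rw [Finset.mul_sum]
      calc ∑ J, bb * ((c J : ℂ) * ∏ i, Z i (J i))
          = ((m : ℤ) : ℂ) * ∑ J, g J • (bb * ∏ i, Z i (J i)) := by
            rw [Finset.mul_sum]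
            refine Finset.sum_congr rfl fun J _ => ?_
            rw [h3, Rat.smul_def]
            ring
        _ = 0 := by rw [h1, mul_zero]
    exact (mul_eq_zero.1 h2).resolve_left hbb0

/-- choice of the number of factors -/
theorem exists_s (k G d : ℕ) (hd : 1 ≤ d) :
    ∃ s : ℕ, (s * G + 1) ^ k * (d - 1) ^ s < d ^ s := by
  set r : ℝ := ((d : ℝ) - 1) / d with hr
  have hd' : (1 : ℝ) ≤ d := by exact_mod_cast hd
  have hr0 : 0 ≤ r := div_nonneg (by linarith) (by linarith)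
  have hr1 : r < 1 := by
    rw [hr, div_lt_one (by linarith)]
    linarith
  have ht := tendsto_pow_const_mul_const_pow_of_abs_lt_one k (r := r)
    (by rw [abs_of_nonneg hr0]; exact hr1)
  have hpos : (0 : ℝ) < 1 / ((G : ℝ) + 1) ^ k := by positivity
  have he := (ht.eventually (gt_mem_nhds hpos)).and (Filter.eventually_ge_atTop 1)
  obtain ⟨s, hs, hs1⟩ := he.exists
  refine ⟨s, ?_⟩
  have hs1' : (1 : ℝ) ≤ s := by exact_mod_cast hs1
  have h1 : (((s * G + 1) ^ k * (d - 1) ^ s : ℕ) : ℝ) < ((d ^ s : ℕ) : ℝ) := by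
    push_cast [Nat.cast_sub hd]
    have h2 : ((s : ℝ) * G + 1) ^ k ≤ (s : ℝ) ^ k * ((G : ℝ) + 1) ^ k := by
      rw [← mul_pow]
      refine pow_le_pow_left₀ (by positivity) ?_ k
      nlinarith
    have h3 : ((d : ℝ) - 1) ^ s = r ^ s * (d : ℝ) ^ s := by
      rw [← mul_pow, hr, div_mul_cancel₀]
      linarith
    have hds : (0 : ℝ) < (d : ℝ) ^ s := by positivity
    have hrs : (0 : ℝ) ≤ r ^ s := pow_nonneg hr0 s
    have hG : (0 : ℝ) < ((G : ℝ) + 1) ^ k := by positivity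
    rw [lt_div_iff₀ hG] at hs
    calc ((s : ℝ) * G + 1) ^ k * ((d : ℝ) - 1) ^ s
        ≤ ((s : ℝ) ^ k * ((G : ℝ) + 1) ^ k) * (r ^ s * (d : ℝ) ^ s) := by
          rw [h3]
          exact mul_le_mul_of_nonneg_right h2 (mul_nonneg hrs hds.le)
      _ = ((s : ℝ) ^ k * r ^ s * ((G : ℝ) + 1) ^ k) * (d : ℝ) ^ s := by ring
      _ < 1 * (d : ℝ) ^ s := mul_lt_mul_of_pos_right hs hds
      _ = (d : ℝ) ^ s := one_mul _
  exact_mod_cast h1

theorem aeval_mem {D : ℕ} (θ : Fin k → ℂ) (ℓ : ℂ) (p : MvPolynomial (Fin k) ℤ)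
    (hp : p.totalDegree ≤ D) :
    MvPolynomial.aeval θ p ∈ Mo (Fin.cons ℓ θ : Fin (k + 1) → ℂ) D := by
  rw [MvPolynomial.aeval_def, MvPolynomial.eval₂_eq']
  refine Submodule.sum_mem _ fun m hm => ?_
  have h1 : ∏ i, (Fin.cons ℓ θ : Fin (k + 1) → ℂ) i ^ ((Fin.cons 0 (fun j => m j) :
      Fin (k + 1) → ℕ) i) ∈ Mo (Fin.cons ℓ θ : Fin (k + 1) → ℂ) D := by
    refine mono_mem fun i => ?_
    refine Fin.cases ?_ (fun j => ?_) i
    · simp
    · rw [Fin.cons_succ]
      refine le_trans ?_ hp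
      refine le_trans ?_ (MvPolynomial.le_totalDegree hm)
      by_cases hj : j ∈ m.support
      · exact Finset.single_le_sum (f := fun i => m i) (fun i _ => Nat.zero_le _) hj
      · rw [Finsupp.notMem_support_iff.1 hj]; exact Nat.zero_le _
  rw [Fin.prod_univ_succ] at h1
  simp only [Fin.cons_zero, pow_zero, Fin.cons_succ, one_mul] at h1
  have h2 := Submodule.smul_mem (Mo (Fin.cons ℓ θ : Fin (k + 1) → ℂ) D) ((p.coeff m : ℤ) : ℚ) h1
  rw [Rat.smul_def] at h2
  simpa using h2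

theorem pow_mem {n : ℕ} (θ : Fin k → ℂ) (ℓ : ℂ) (e : ℕ) (he : e ≤ n) :
    ℓ ^ e ∈ Mo (Fin.cons ℓ θ : Fin (k + 1) → ℂ) n := by
  have h1 : ∏ i, (Fin.cons ℓ θ : Fin (k + 1) → ℂ) i ^ ((Fin.cons e (fun _ => 0) :
      Fin (k + 1) → ℕ) i) ∈ Mo (Fin.cons ℓ θ : Fin (k + 1) → ℂ) n := by
    refine mono_mem fun i => ?_
    refine Fin.cases ?_ (fun j => ?_) i
    · simpa using he
    · simp
  rw [Fin.prod_univ_succ] at h1
  simpa using h1

end ELIM_

open ELIM_ in
/-- multilinear elimination -/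
theorem p_ELIM : T_ELIM := by
  classical
  intro q n k D
  have hd : 1 ≤ Fintype.card (I0 q n) :=
    Fintype.card_pos_iff.2 ⟨⟨([], 0), by simp⟩⟩
  obtain ⟨s, hs⟩ := exists_s (k + 1) (n + D) (Fintype.card (I0 q n)) hd
  refine ⟨s, ?_⟩
  intro θ ℓ x t _ hrel
  have hrel' : ∀ i, ∃ (c : I0 q n → MvPolynomial (Fin k) ℤ) (u : I0 q n),
      (∀ u, (c u).totalDegree ≤ D) ∧ MvPolynomial.aeval θ (c u) ≠ 0 ∧
      ∑ u : I0 q n, MvPolynomial.aeval θ (c u) * x i u.1.1 * t i ^ u.1.2 = 0 := by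
    intro i
    obtain ⟨c, h1, ⟨u, h2⟩, h3⟩ := hrel i
    exact ⟨c, u, h1, h2, h3⟩
  choose c u hcD hu hsum using hrel'
  set Θ : Fin (k + 1) → ℂ := Fin.cons ℓ θ with hΘ
  set Y : Fin s → I0 q n → ℂ := fun i w => x i w.1.1 * t i ^ w.1.2 with hY
  set Z : Fin s → I0 q n → ℂ := fun i w => x i w.1.1 * (ℓ - t i) ^ w.1.2 with hZ
  set b : Fin s → ℂ := fun i => MvPolynomial.aeval θ (c i (u i)) with hb
  have hYm : ∀ i w, b i * Y i w ∈ Mo Θ D * V (Y i) (u i) := by
    intro i w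
    by_cases hw : w = u i
    · subst hw
      have h1 : b i * Y i (u i) = - ∑ w ∈ Finset.univ.erase (u i),
          MvPolynomial.aeval θ (c i w) * Y i w := by
        have h2 := hsum i
        rw [← Finset.add_sum_erase _ _ (Finset.mem_univ (u i))] at h2
        simp only [mul_assoc] at h2
        simp only [hb, hY]
        linear_combination h2
      rw [h1]
      refine Submodule.neg_mem _ (Submodule.sum_mem _ fun w hw => ?_)
      refine Submodule.mul_mem_mul (aeval_mem θ ℓ _ (hcD i w)) (Submodule.subset_span ⟨w, ?_, rfl⟩)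
      exact Finset.ne_of_mem_erase hw
    · exact Submodule.mul_mem_mul (aeval_mem θ ℓ _ (hcD i (u i)))
        (Submodule.subset_span ⟨w, hw, rfl⟩)
  have hZm : ∀ i w, b i * Z i w ∈ Mo Θ (n + D) * V (Y i) (u i) := by
    intro i w
    obtain ⟨⟨w0, m⟩, hw1, hw2⟩ := w
    have hmn : m ≤ n := by simp only at hw1; omega
    have h1 : b i * Z i ⟨(w0, m), hw1, hw2⟩ = ∑ e ∈ range (m + 1),
        ((((-1 : ℚ) ^ e * (m.choose e : ℚ)) • (ℓ ^ (m - e) * (b i * (x i w0 * t i ^ e)))) : ℂ) := by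
      simp only [hZ]
      have h2 : (ℓ - t i) ^ m = ∑ e ∈ range (m + 1),
          (-1 : ℂ) ^ e * (m.choose e : ℂ) * (ℓ ^ (m - e) * t i ^ e) := by
        rw [show ℓ - t i = -(t i) + ℓ by ring, add_pow]
        refine Finset.sum_congr rfl fun e _ => ?_
        rw [neg_pow (t i) e]
        ring
      rw [h2, Finset.mul_sum, Finset.mul_sum]
      refine Finset.sum_congr rfl fun e _ => ?_
      rw [Rat.smul_def]
      push_cast
      ring
    rw [h1]
    refine Submodule.sum_mem _ fun e he => Submodule.smul_mem _ _ ?_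
    have hem : e ≤ m := by rw [Finset.mem_range] at he; omega
    have hwe : w0.length + e ≤ n ∧ w0.getLast? ≠ some none := ⟨by simp only at hw1; omega, hw2⟩
    have h3 := hYm i ⟨(w0, e), hwe⟩
    have h4 := pow_mem (n := n) θ ℓ (m - e) (by omega)
    have h5 := Submodule.mul_mem_mul h4 h3
    rw [← mul_assoc] at h5
    exact mm (Mo_mul n D) le_rfl h5
  exact core Y Z u b hu hZm hs

end Pool.Agent.HYP
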