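import Pool.Agent.HYP.Targets
import Pool.Agent.PLG.LIN

set_option autoImplicit false

/-!
# The products are combinations of hyperlogarithms (job EXPA, MP_5d33ca_ag)
-/

namespace Pool.Agent.HYP.EXPA_

open Finset
open scoped BigOperators
open PLG.LIN_

variable {q s : ℕ}

theorem one_In_mem (c : Lt s q → ℕ) (y : Lt s q) : PLG.In c (some y) 1 ∈ Ap c 1 :=
  Submodule.subset_span ⟨[some y], by simp [PLG.ok], by simp, by simp, rfl⟩

theorem bw_mem (c : Lt s q → ℕ) (i : Fin s) : ∀ w : Wd q, w ≠ [] → w.getLast? ≠ some none →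
    bw c i w ∈ Ap c w.length
  | [], h, _ => absurd rfl h
  | [none], _, h => absurd rfl h
  | [some j], _, _ => by
    simp only [bw, List.length_singleton]
    exact Submodule.sub_mem _ (one_In_mem c _) (one_In_mem c _)
  | none :: y :: w, _, h => by
    have h1 := bw_mem c i (y :: w) (by simp) (by rwa [List.getLast?_cons_cons] at h)
    rw [bw]
    exact Submodule.sub_mem _ (In_mem c _ h1) (In_mem c _ h1)
  | some j :: y :: w, _, h => by
    have h1 := bw_mem c i (y :: w) (by simp) (by rwa [List.getLast?_cons_cons] at h)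
    rw [bw]
    exact Submodule.sub_mem _ (In_mem c _ h1) (In_mem c _ h1)

theorem bw_mem' (c : Lt s q → ℕ) (i : Fin s) (w : Wd q) (h : w.getLast? ≠ some none) :
    bw c i w ∈ A c w.length := by
  by_cases hw : w = []
  · subst hw
    exact one_mem c _
  · exact Ap_le_A c _ (bw_mem c i w hw h)

theorem lam_mem (c : Lt s q → ℕ) (i : Fin s) : lam c i ∈ A c 1 :=
  Submodule.neg_mem _ (Ap_le_A c _ (one_In_mem c _))

theorem phi_mem (h : PLG.T_SHUF) (c : Lt s q → ℕ) (i : Fin s) (u : Wd q × ℕ)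
    (hu : u.1.getLast? ≠ some none) : phi c i u ∈ A c (u.1.length + u.2) := by
  have h1 := mul_mem h c (bw_mem' c i u.1 hu) (pow_mem h c (lam_mem c i) u.2)
  rwa [mul_one] at h1

end Pool.Agent.HYP.EXPA_

namespace Pool.Agent.HYP

open EXPA_ PLG.LIN_

/-- EXPA -/
theorem p_EXPA (h : PLG.T_SHUF) : T_EXPA := by
  intro q n s c J
  have h1 : pf c J ∈ A c (∑ i, ((J i).1.1.length + (J i).1.2)) :=
    prod_mem h c Finset.univ _ _ fun i _ => phi_mem h c i (J i).1 (J i).2.2
  have h2 : ∑ i : Fin s, ((J i).1.1.length + (J i).1.2) ≤ s * n := by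
    have := Finset.sum_le_card_nsmul (Finset.univ : Finset (Fin s))
      (fun i => (J i).1.1.length + (J i).1.2) n (fun i _ => (J i).2.1)
    simpa using this
  have key := A_mono c h2 h1
  have hspan : A c (s * n) =
      Submodule.span ℚ (Set.range fun w : PLG.Wd (Lt s q) (s * n) => PLG.L c w.1) := by
    unfold A
    congr 1
    ext f
    constructor
    · rintro ⟨w, h2, h3, rfl⟩
      exact ⟨⟨w, h3, h2⟩, rfl⟩
    · rintro ⟨w, rfl⟩
      exact ⟨w.1, w.2.2, w.2.1, rfl⟩
  rw [hspan, Submodule.mem_span_range_iff_exists_fun] at key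
  obtain ⟨mu, hmu⟩ := key
  exact ⟨mu, hmu.symm⟩

end Pool.Agent.HYP
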