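import Pool.Agent.HYP.Targets
import Pool.Agent.PLG.ABS

set_option autoImplicit false

/-!
# HYP-IND: independence of the solutions of a graded system
-/

open Finset Polynomial
open scoped BigOperators

namespace Pool.Agent.HYP

namespace IND_

variable {ι κ : Type} [Fintype ι] [DecidableEq ι] [Fintype κ] [DecidableEq κ]

/-- the measure -/
noncomputable def mu (wt : ι → ℕ) (F : ι → ℚ[X]) : ℕ := by
  classical
  exact ∑ J ∈ Finset.univ.filter (fun J => F J ≠ 0), (Fintype.card ι + 1) ^ wt J

/-- the matrix of the system -/
noncomputable def AA (c : κ → ℕ) (B : Option κ → ι → ι → ℤ) (i j : ι) : ℚ[X] :=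
  ∑ x, PLG.Tx c x * (B x i j : ℚ[X])

/-- the dual operator -/
noncomputable def dl (c : κ → ℕ) (B : Option κ → ι → ι → ℤ) (F : ι → ℚ[X]) (j : ι) : ℚ[X] :=
  PLG.TT c * derivative (F j) + ∑ i, F i * AA c B i j

omit [DecidableEq ι] in
theorem mu_lt (wt : ι → ℕ) (F G : ι → ℚ[X]) (Js : ι) (hJs : F Js ≠ 0) (h1 : 1 ≤ wt Js)
    (hG1 : ∀ J, wt Js < wt J → G J = 0) (hG2 : ∀ J, wt J = wt Js → F J = 0 → G J = 0)
    (hG3 : G Js = 0) : mu wt G < mu wt F := by
  classical
  unfold mu
  set M := Fintype.card ι with hM
  set d := wt Js with hd
  have hsub : Finset.univ.filter (fun J => G J ≠ 0) ⊆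
      ((Finset.univ.filter (fun J => F J ≠ 0)).filter (fun J => wt J = d)).erase Js ∪
        Finset.univ.filter (fun J => wt J < d) := by
    intro J hJ
    rw [Finset.mem_filter] at hJ
    rw [Finset.mem_union, Finset.mem_erase, Finset.mem_filter, Finset.mem_filter, Finset.mem_filter]
    rcases lt_trichotomy (wt J) d with h | h | h
    · right; exact ⟨Finset.mem_univ _, h⟩
    · left
      refine ⟨fun e => hJ.2 (by rw [e]; exact hG3), ⟨Finset.mem_univ _, fun e => hJ.2 (hG2 J h e)⟩, h⟩
    · exact absurd (hG1 J h) hJ.2
  have hlow : ∑ J ∈ Finset.univ.filter (fun J : ι => wt J < d), (M + 1) ^ wt J < (M + 1) ^ d := by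
    calc ∑ J ∈ Finset.univ.filter (fun J : ι => wt J < d), (M + 1) ^ wt J
        ≤ ∑ J ∈ Finset.univ.filter (fun J : ι => wt J < d), (M + 1) ^ (d - 1) := by
          refine Finset.sum_le_sum fun J hJ => ?_
          rw [Finset.mem_filter] at hJ
          exact Nat.pow_le_pow_right (by omega) (by omega)
      _ = (Finset.univ.filter (fun J : ι => wt J < d)).card * (M + 1) ^ (d - 1) := by
          rw [Finset.sum_const, smul_eq_mul]
      _ ≤ M * (M + 1) ^ (d - 1) := by
          refine Nat.mul_le_mul_right _ ?_
          rw [hM]
          exact Finset.card_le_univ _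
      _ < (M + 1) * (M + 1) ^ (d - 1) := Nat.mul_lt_mul_of_pos_right (by omega) (by positivity)
      _ = (M + 1) ^ d := by
          rw [← pow_succ']
          congr 1
          omega
  have hmem : Js ∈ (Finset.univ.filter (fun J => F J ≠ 0)).filter (fun J => wt J = d) := by
    simp [hJs, hd]
  calc ∑ J ∈ Finset.univ.filter (fun J => G J ≠ 0), (M + 1) ^ wt J
      ≤ ∑ J ∈ ((Finset.univ.filter (fun J => F J ≠ 0)).filter (fun J => wt J = d)).erase Js ∪
        Finset.univ.filter (fun J => wt J < d), (M + 1) ^ wt J := Finset.sum_le_sum_of_subset hsub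
    _ ≤ ∑ J ∈ ((Finset.univ.filter (fun J => F J ≠ 0)).filter (fun J => wt J = d)).erase Js,
          (M + 1) ^ wt J + ∑ J ∈ Finset.univ.filter (fun J : ι => wt J < d), (M + 1) ^ wt J := by
        rw [← Finset.sum_union_inter]
        exact Nat.le_add_right _ _
    _ < ∑ J ∈ ((Finset.univ.filter (fun J => F J ≠ 0)).filter (fun J => wt J = d)).erase Js,
          (M + 1) ^ wt J + (M + 1) ^ wt Js := Nat.add_lt_add_left hlow _
    _ = ∑ J ∈ (Finset.univ.filter (fun J => F J ≠ 0)).filter (fun J => wt J = d),
          (M + 1) ^ wt J := Finset.sum_erase_add _ _ hmem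
    _ ≤ ∑ J ∈ Finset.univ.filter (fun J => F J ≠ 0), (M + 1) ^ wt J :=
        Finset.sum_le_sum_of_subset (Finset.filter_subset _ _)

omit [DecidableEq ι] in
theorem AA_zero {c : κ → ℕ} {B : Option κ → ι → ι → ℤ} {wt : ι → ℕ} {J0 : ι}
    {f : ι → PowerSeries ℚ} (hFu : Fu c B wt J0 f) {i j : ι} (h : wt i ≠ wt j + 1) :
    AA c B i j = 0 := by
  unfold AA
  refine Finset.sum_eq_zero fun x _ => ?_
  have : B x i j = 0 := by
    by_contra hne
    exact h (hFu.low x i j hne)
  rw [this]
  simp

omit [DecidableEq ι] in
theorem dl_rel {c : κ → ℕ} {B : Option κ → ι → ι → ℤ} {wt : ι → ℕ} {J0 : ι}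
    {f : ι → PowerSeries ℚ} (hFu : Fu c B wt J0 f) (F : ι → ℚ[X])
    (hF : ∑ i, (F i : PowerSeries ℚ) * f i = 0) :
    ∑ i, (dl c B F i : PowerSeries ℚ) * f i = 0 := by
  have e1 : ∀ j, (dl c B F j : PowerSeries ℚ) = (PLG.TT c : PowerSeries ℚ) *
      PowerSeries.derivative ℚ (F j : PowerSeries ℚ) +
        ∑ i, (F i : PowerSeries ℚ) * (AA c B i j : PowerSeries ℚ) := by
    intro j
    unfold dl
    rw [Polynomial.coe_add, Polynomial.coe_mul, PowerSeries.derivative_coe,
      ← Polynomial.coeToPowerSeries.ringHom_apply (φ := ∑ i, F i * AA c B i j), map_sum]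
    congr 1
    refine Finset.sum_congr rfl fun i _ => ?_
    rw [Polynomial.coeToPowerSeries.ringHom_apply, Polynomial.coe_mul]
  have e2 : ∀ i, (PLG.TT c : PowerSeries ℚ) * PowerSeries.derivative ℚ (f i) =
      ∑ j, (AA c B i j : PowerSeries ℚ) * f j := by
    intro i
    rw [hFu.ode i]
    simp only [Finset.mul_sum]
    rw [Finset.sum_comm]
    refine Finset.sum_congr rfl fun j _ => ?_
    unfold AA
    rw [← Polynomial.coeToPowerSeries.ringHom_apply (φ := ∑ x, PLG.Tx c x * (B x i j : ℚ[X])),
      map_sum, Finset.sum_mul]
    refine Finset.sum_congr rfl fun x _ => ?_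
    rw [map_mul, map_intCast, Polynomial.coeToPowerSeries.ringHom_apply]
    ring
  have h0 := congrArg (fun g => (PLG.TT c : PowerSeries ℚ) * PowerSeries.derivative ℚ g) hF
  simp only [map_zero, mul_zero, map_sum, Derivation.leibniz, smul_eq_mul, Finset.mul_sum,
    mul_add, Finset.sum_add_distrib] at h0
  have e3 : ∑ i, (PLG.TT c : PowerSeries ℚ) * ((F i : PowerSeries ℚ) *
      PowerSeries.derivative ℚ (f i)) = ∑ j, (∑ i, (F i : PowerSeries ℚ) *
        (AA c B i j : PowerSeries ℚ)) * f j := by
    simp only [Finset.sum_mul]
    rw [Finset.sum_comm]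
    refine Finset.sum_congr rfl fun i _ => ?_
    rw [mul_left_comm, e2 i, Finset.mul_sum]
    refine Finset.sum_congr rfl fun j _ => ?_
    ring
  rw [e3] at h0
  simp only [e1, add_mul, Finset.sum_add_distrib]
  rw [← h0, add_comm]
  congr 1
  refine Finset.sum_congr rfl fun i _ => ?_
  ring

end IND_

open IND_ in
theorem p_IND (h : PLG.T_RES) : T_IND := by
  classical
  intro ι κ _ _ _ _ c B wt J0 f hFu hc hc1 hsep
  have main : ∀ (m : ℕ) (F : ι → ℚ[X]), mu wt F = m →
      ∑ i, (F i : PowerSeries ℚ) * f i = 0 → F = 0 := by
    intro m
    induction m using Nat.strong_induction_on with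
    | _ m ih =>
    intro F hm hF
    by_contra hne
    have hex : (Finset.univ.filter (fun J => F J ≠ 0)).Nonempty := by
      by_contra hh
      apply hne
      funext J
      by_contra hJ
      exact hh ⟨J, by simp only [Finset.mem_filter, Finset.mem_univ, true_and]; exact hJ⟩
    obtain ⟨Js, hJs, hmax⟩ := Finset.exists_max_image _ wt hex
    rw [Finset.mem_filter] at hJs
    have hVne := hJs.2
    have hmax' : ∀ J, wt Js < wt J → F J = 0 := by
      intro J hJ
      by_contra h
      have := hmax J (by simp [h])
      omega
    rcases Nat.eq_zero_or_pos (wt Js) with h0 | h1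
    · have hJ0 : Js = J0 := hFu.wt0 Js h0
      rw [Finset.sum_eq_single Js] at hF
      · rw [hJ0, hFu.f0, mul_one] at hF
        apply hVne
        rw [hJ0]
        have : ((F J0 : ℚ[X]) : PowerSeries ℚ) = ((0 : ℚ[X]) : PowerSeries ℚ) := by
          rw [hF]; simp
        exact Polynomial.coe_injective ℚ this
      · intro b _ hb
        have : F b = 0 := by
          apply hmax'
          rw [h0]
          by_contra hh
          have h2 := hFu.wt0 b (by omega)
          exact hb (h2.trans hJ0.symm)
        rw [this]
        simp
      · intro h'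
        exact absurd (Finset.mem_univ _) h'
    · have htop : ∀ j, wt Js ≤ wt j → dl c B F j = PLG.TT c * derivative (F j) := by
        intro j hj
        unfold dl
        rw [add_eq_left]
        refine Finset.sum_eq_zero fun i _ => ?_
        by_cases hij : wt i = wt j + 1
        · rw [hmax' i (by omega), zero_mul]
        · rw [AA_zero hFu hij, mul_zero]
      set G : ι → ℚ[X] := fun j => F Js * dl c B F j - PLG.TT c * derivative (F Js) * F j with hG
      have hGrel : ∑ i, (G i : PowerSeries ℚ) * f i = 0 := by
        have h2 := dl_rel hFu F hF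
        have e : ∀ i, (G i : PowerSeries ℚ) * f i = (F Js : PowerSeries ℚ) *
            ((dl c B F i : PowerSeries ℚ) * f i) - ((PLG.TT c * derivative (F Js) : ℚ[X]) :
              PowerSeries ℚ) * ((F i : PowerSeries ℚ) * f i) := by
          intro i
          simp only [hG, Polynomial.coe_sub, Polynomial.coe_mul]
          ring
        rw [Finset.sum_congr rfl fun i _ => e i, Finset.sum_sub_distrib, ← Finset.mul_sum,
          ← Finset.mul_sum, h2, hF, mul_zero, mul_zero, sub_zero]
      have hlt : mu wt G < mu wt F := by
        refine mu_lt wt F _ Js hVne h1 ?_ ?_ ?_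
        · intro J hJ
          simp only [hG]
          rw [htop J hJ.le, hmax' J hJ]
          simp
        · intro J hJ hFJ
          simp only [hG]
          rw [htop J hJ.ge, hFJ]
          simp
        · simp only [hG]
          rw [htop Js le_rfl]
          ring
      have hG0 := ih _ (by rw [← hm]; exact hlt) _ rfl hGrel
      have hEq : ∀ I, F Js * dl c B F I = PLG.TT c * derivative (F Js) * F I := by
        intro I
        have := congrFun hG0 I
        simp only [hG, Pi.zero_apply] at this
        linear_combination this
      have hT0 : PLG.TT c ≠ 0 := by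
        unfold PLG.TT
        refine mul_ne_zero Polynomial.X_ne_zero (Finset.prod_ne_zero_iff.2 fun i _ => ?_)
        intro h
        have := congrArg (eval 0) h
        simp at this
      have hrat : ∀ i, ∃ e : ℚ, wt i = wt Js → F i = C e * F Js := by
        intro i
        by_cases hi : wt i = wt Js
        · have h3 : F Js * derivative (F i) = derivative (F Js) * F i := by
            have := hEq i
            rw [htop i hi.ge] at this
            refine mul_left_cancel₀ hT0 ?_
            linear_combination this
          obtain ⟨e, he⟩ := PLG.ABS_.ratio (F Js) (F i) hVne h3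
          exact ⟨e, fun _ => he⟩
        · exact ⟨0, fun h => absurd h hi⟩
      choose e0 he0 using hrat
      set e : ι → ℚ := fun i => if wt i = wt Js then e0 i else 0 with he
      have hFe : ∀ i, wt i = wt Js → F i = C (e i) * F Js := by
        intro i hi
        rw [he]
        simp only [hi, if_true]
        exact he0 i hi
      have hzero : e = 0 := by
        refine hsep (wt Js) e h1 (fun i hi => ?_) ?_
        · by_contra hh
          apply hi
          rw [he]
          simp [hh]
        · intro x j
          by_cases hj : wt Js = wt j + 1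
          · have h4 := hEq j
            have h5 : ∑ i, F i * AA c B i j = F Js * ∑ x, C (∑ i, e i * (B x i j : ℚ)) *
                PLG.Tx c x := by
              have h6 : ∀ i, F i * AA c B i j = F Js * ∑ x, C (e i * (B x i j : ℚ)) *
                  PLG.Tx c x := by
                intro i
                by_cases hi : wt i = wt Js
                · rw [hFe i hi]
                  unfold AA
                  rw [mul_assoc, mul_left_comm]
                  congr 1
                  rw [Finset.mul_sum]
                  refine Finset.sum_congr rfl fun x _ => ?_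
                  rw [C_mul]
                  have : (C ((B x i j : ℚ)) : ℚ[X]) = (B x i j : ℚ[X]) := by simp
                  rw [this]
                  ring
                · rw [AA_zero hFu (by omega), mul_zero]
                  have : e i = 0 := by
                    rw [he]; simp [hi]
                  simp [this]
              rw [Finset.sum_congr rfl fun i _ => h6 i, ← Finset.mul_sum, Finset.sum_comm]
              congr 1
              refine Finset.sum_congr rfl fun x _ => ?_
              rw [map_sum, Finset.sum_mul]
            have h7 := h κ c hc hc1 (F Js) (F j) (fun x => -∑ i, e i * (B x i j : ℚ)) hVne (by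
              unfold dl at h4
              rw [h5] at h4
              have h8 : ∑ x, C (-∑ i, e i * (B x i j : ℚ)) * PLG.Tx c x =
                  -∑ x, C (∑ i, e i * (B x i j : ℚ)) * PLG.Tx c x := by
                rw [← Finset.sum_neg_distrib]
                refine Finset.sum_congr rfl fun x _ => ?_
                rw [C_neg]
                ring
              rw [h8]
              linear_combination h4)
            have h9 := congrFun h7 x
            simp only [Pi.zero_apply, neg_eq_zero] at h9
            exact h9
          · refine Finset.sum_eq_zero fun i _ => ?_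
            by_cases hi : wt i = wt Js
            · have : B x i j = 0 := by
                by_contra hb
                have := hFu.low x i j hb
                omega
              rw [this]; simp
            · have : e i = 0 := by
                rw [he]; simp [hi]
              rw [this]; simp
      have h10 := hFe Js rfl
      rw [hzero] at h10
      simp at h10
      exact hVne h10
  intro F hF
  exact main _ F rfl hF

end Pool.Agent.HYP
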