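import Pool.Agent.HYP.PROD

set_option autoImplicit false

/-!
# One point: counting
-/

namespace Pool.Agent.HYP

open Finset
open scoped BigOperators

namespace MAIN_

/-- relation for an enumerated set of exactly `q` letters bounded by `h` -/
def BadQ {k : ℕ} (q n D : ℕ) (θ : Fin k → ℂ) (h t : ℕ) : Prop :=
  ∃ a : Fin q → ℤ, (∀ j, a j ≠ 0) ∧ Function.Injective a ∧ (∀ j, |a j| ≤ (h : ℤ)) ∧
    ∃ c : I0 q n → MvPolynomial (Fin k) ℤ, (∀ u, (c u).totalDegree ≤ D) ∧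
      (∃ u, MvPolynomial.aeval θ (c u) ≠ 0) ∧
      ∑ u : I0 q n, MvPolynomial.aeval θ (c u) * (hv (wd a u.1.1) t : ℂ) *
        (Real.log t : ℂ) ^ u.1.2 = 0

theorem wd_cons_none {q : ℕ} (a : Fin q → ℤ) (w : Wd q) : wd a (none :: w) = 0 :: wd a w := rfl

theorem wd_cons_some {q : ℕ} (a : Fin q → ℤ) (j : Fin q) (w : Wd q) :
    wd a (some j :: w) = a j :: wd a w := rfl

theorem wd_inj {q : ℕ} {a : Fin q → ℤ} (h0 : ∀ j, a j ≠ 0) (hi : Function.Injective a) :
    Function.Injective (wd a) := by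
  apply List.map_injective_iff.2
  rintro (_ | j) (_ | l) hjl
  · rfl
  · exact absurd hjl.symm (h0 l)
  · exact absurd hjl (h0 j)
  · exact congrArg some (hi hjl)

theorem wd_surj {q : ℕ} {a : Fin q → ℤ} {A : Finset ℤ} (hr : ∀ x ∈ A, ∃ j, a j = x)
    (w : List ℤ) (hw : ∀ x ∈ w, x = 0 ∨ x ∈ A) : ∃ v : Wd q, wd a v = w := by
  induction w with
  | nil => exact ⟨[], rfl⟩
  | cons x w ih =>
    obtain ⟨v, hv⟩ := ih fun y hy => hw y (List.mem_cons_of_mem _ hy)
    rcases hw x List.mem_cons_self with h | h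
    · exact ⟨none :: v, by rw [wd_cons_none, hv, h]⟩
    · obtain ⟨j, hj⟩ := hr x h
      exact ⟨some j :: v, by rw [wd_cons_some, hv, hj]⟩

theorem wd_length {q : ℕ} (a : Fin q → ℤ) (w : Wd q) : (wd a w).length = w.length := by
  simp [wd]

theorem wd_last {q : ℕ} {a : Fin q → ℤ} (h0 : ∀ j, a j ≠ 0) (w : Wd q) :
    (wd a w).getLast? ≠ some 0 ↔ w.getLast? ≠ some none := by
  rw [wd, List.getLast?_map]
  rcases h : w.getLast? with _ | (_ | j)
  · simp
  · simp
  · simp [h0 j]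

theorem bad_to {k : ℕ} {n D : ℕ} {θ : Fin k → ℂ} {A : Finset ℤ} {t h : ℕ}
    (hA : ∀ a ∈ A, a ≠ 0 ∧ |a| ≤ (h : ℤ)) (hb : Bad n D θ A t) : BadQ A.card n D θ h t := by
  classical
  obtain ⟨c, hc1, ⟨p0, hp0⟩, hc3⟩ := hb
  set a : Fin A.card → ℤ := fun j => (A.equivFin.symm j : ℤ) with ha
  have hinj : Function.Injective a := fun x y hxy => A.equivFin.symm.injective (Subtype.ext hxy)
  have hmem : ∀ j, a j ∈ A := fun j => (A.equivFin.symm j).2
  have h0 : ∀ j, a j ≠ 0 := fun j => (hA _ (hmem j)).1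
  have hr : ∀ x ∈ A, ∃ j, a j = x := by
    intro x hx
    refine ⟨A.equivFin ⟨x, hx⟩, ?_⟩
    simp [ha]
  set f : I0 A.card n → List ℤ × ℕ := fun u => (wd a u.1.1, u.1.2) with hf
  have hfi : Function.Injective f := by
    rintro ⟨⟨w, m⟩, h1⟩ ⟨⟨w', m'⟩, h2⟩ h3
    simp only [hf, Prod.mk.injEq] at h3
    have h4 := wd_inj h0 hinj h3.1
    have h5 := h3.2
    subst h4; subst h5
    rfl
  have hfs : ∀ p ∈ c.support, ∃ u, f u = p := by
    rintro ⟨w, m⟩ hp
    obtain ⟨⟨h1, h2, h3⟩, _⟩ := hc1 _ hp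
    obtain ⟨v, hv⟩ := wd_surj hr w h2
    refine ⟨⟨(v, m), ?_, ?_⟩, ?_⟩
    · rw [← wd_length a v, hv]
      exact h1
    · rw [← wd_last h0, hv]
      exact h3
    · simp [hf, hv]
  refine ⟨a, h0, hinj, fun j => (hA _ (hmem j)).2, fun u => c (f u), ?_, ?_, ?_⟩
  · intro u
    show (c (f u)).totalDegree ≤ D
    by_cases hu : f u ∈ c.support
    · exact (hc1 _ hu).2
    · rw [Finsupp.notMem_support_iff.1 hu]
      simp
  · have hp : p0 ∈ c.support := by
      rw [Finsupp.mem_support_iff]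
      intro h
      rw [h, map_zero] at hp0
      exact hp0 rfl
    obtain ⟨u, hu⟩ := hfs p0 hp
    refine ⟨u, ?_⟩
    show MvPolynomial.aeval θ (c (f u)) ≠ 0
    rw [hu]
    exact hp0
  · have hsub : c.support ⊆ Finset.univ.image f := by
      intro p hp
      obtain ⟨u, hu⟩ := hfs p hp
      exact Finset.mem_image.2 ⟨u, Finset.mem_univ _, hu⟩
    rw [Finsupp.sum_of_support_subset c hsub _ (by intro i _; simp)] at hc3
    rw [Finset.sum_image (fun x _ y _ h => hfi h)] at hc3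
    exact hc3

theorem hv_nil (t : ℕ) : hv [] t = 1 := by
  unfold hv hl
  rw [tsum_eq_single 0]
  · simp
  · intro s hs
    rw [PowerSeries.coeff_one, if_neg hs]
    simp

/-- selection of separated elements -/
theorem select (S : Finset ℕ) (s m : ℕ) (hm : 1 ≤ m) (hS : s * m ≤ S.card) :
    ∃ b : Fin s → ℕ, (∀ i, b i ∈ S) ∧ ∀ i l : Fin s, i < l → b i + m ≤ b l := by
  classical
  have hlt : ∀ i : Fin s, (i : ℕ) * m < S.card := by
    intro i
    have h1 : (i : ℕ) + 1 ≤ s := i.isLt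
    have h2 : ((i : ℕ) + 1) * m ≤ s * m := Nat.mul_le_mul_right _ h1
    have h3 : ((i : ℕ) + 1) * m = (i : ℕ) * m + m := by ring
    omega
  set e := S.orderEmbOfFin rfl with he
  have hmono : ∀ x y : Fin S.card, x ≤ y → e x + ((y : ℕ) - x) ≤ e y := by
    intro x y hxy
    obtain ⟨d, hd⟩ : ∃ d : ℕ, (y : ℕ) = x + d := ⟨(y : ℕ) - x, by
      have : (x : ℕ) ≤ y := hxy
      omega⟩
    induction d generalizing y with
    | zero =>
      have : y = x := Fin.ext (by omega)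
      rw [this]; simp
    | succ d ih =>
      have hy' : (x : ℕ) + d < S.card := by have := y.isLt; omega
      have h1 := ih ⟨(x : ℕ) + d, hy'⟩ (by
        show (x : ℕ) ≤ x + d
        omega) rfl
      have h2 : e ⟨(x : ℕ) + d, hy'⟩ < e y := e.strictMono (by
        show (x : ℕ) + d < y
        omega)
      simp only at h1
      omega
  refine ⟨fun i => e ⟨(i : ℕ) * m, hlt i⟩, fun i => Finset.orderEmbOfFin_mem _ _ _, ?_⟩
  intro i l hil
  have h1 : (i : ℕ) + 1 ≤ l := hil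
  have h2 : ((i : ℕ) + 1) * m ≤ l * m := Nat.mul_le_mul_right _ h1
  have h3 : ((i : ℕ) + 1) * m = (i : ℕ) * m + m := by ring
  have h4 := hmono ⟨(i : ℕ) * m, hlt i⟩ ⟨(l : ℕ) * m, hlt l⟩ (by
    show (i : ℕ) * m ≤ l * m
    omega)
  simp only at h4 ⊢
  omega

open Classical in
/-- one window -/
theorem window {q n k D s E : ℕ}
    (hs : ∀ (θ : Fin k → ℂ) (ℓ : ℂ) (x : Fin s → Wd q → ℂ) (t : Fin s → ℂ), (∀ i, x i [] = 1) →
      (∀ i, ∃ c : I0 q n → MvPolynomial (Fin k) ℤ, (∀ u, (c u).totalDegree ≤ D) ∧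
        (∃ u, MvPolynomial.aeval θ (c u) ≠ 0) ∧
        ∑ u : I0 q n, MvPolynomial.aeval θ (c u) * x i u.1.1 * t i ^ u.1.2 = 0) →
      ∃ c : (Fin s → I0 q n) → ℤ, c ≠ 0 ∧
        ∑ J, (c J : ℂ) * ∏ i, (x i (J i).1.1 * (ℓ - t i) ^ (J i).1.2) = 0)
    (hE : ∀ (N h H : ℕ) (a : Fin s → Fin q → ℤ)
      (b : Fin s → ℕ), Sep h a b → (∀ i, b i + h ≤ H) → 1 ≤ H →
      (E * H) ^ E ≤ N → ∀ c : (Fin s → I0 q n) → ℤ,
      ∑ J, (c J : ℝ) * ∏ i, (hv (wd (a i) (J i).1.1) (N + b i) *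
        (Real.log N - Real.log ((N + b i : ℕ) : ℝ)) ^ (J i).1.2) = 0 → c = 0)
    (θ : Fin k → ℂ) (N h lm : ℕ) (hlm : 1 ≤ lm) (hN : (E * (lm + h)) ^ E ≤ N) :
    ((Finset.Ioc h lm).filter fun b => BadQ q n D θ h (N + b)).card < s * (2 * h + 1) := by
  by_contra hcon
  push Not at hcon
  obtain ⟨b, hb1, hb2⟩ := select _ s (2 * h + 1) (by omega) hcon
  have hb3 : ∀ i, (h < b i ∧ b i ≤ lm) ∧ BadQ q n D θ h (N + b i) := by
    intro i
    have := hb1 i
    rw [Finset.mem_filter, Finset.mem_Ioc] at this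
    exact this
  choose a ha0 hai hah c hc1 hc2 hc3 using fun i => (hb3 i).2
  have hsep : Sep h a b := by
    refine ⟨ha0, hai, hah, fun i => (hb3 i).1.1, ?_⟩
    intro i l hil
    rcases lt_or_gt_of_ne hil with h1 | h1
    · have := hb2 i l h1
      rw [abs_of_nonpos (by omega)]
      omega
    · have := hb2 l i h1
      rw [abs_of_nonneg (by omega)]
      omega
  obtain ⟨e, he0, he1⟩ := hs θ (Real.log N : ℂ) (fun i w => (hv (wd (a i) w) (N + b i) : ℂ))
    (fun i => (Real.log ((N + b i : ℕ) : ℝ) : ℂ)) (fun i => by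
      show ((hv (wd (a i) []) (N + b i) : ℝ) : ℂ) = 1
      have : wd (a i) [] = [] := rfl
      rw [this, hv_nil]
      simp) (fun i => ⟨c i, hc1 i, hc2 i, hc3 i⟩)
  apply he0
  apply hE N h (lm + h) a b hsep (fun i => by have := (hb3 i).1.2; omega) (by omega) hN e
  have h2 : ((∑ J, (e J : ℝ) * ∏ i, (hv (wd (a i) (J i).1.1) (N + b i) *
        (Real.log N - Real.log ((N + b i : ℕ) : ℝ)) ^ (J i).1.2) : ℝ) : ℂ) = 0 := by
    rw [← he1]
    push_cast
    rfl
  exact_mod_cast h2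

open Classical in
/-- counting, `q` letters -/
theorem count {q n k D s E : ℕ} (hE1 : 1 ≤ E)
    (hw : ∀ (θ : Fin k → ℂ) (N h lm : ℕ), 1 ≤ lm → (E * (lm + h)) ^ E ≤ N →
      ((Finset.Ioc h lm).filter fun b => BadQ q n D θ h (N + b)).card < s * (2 * h + 1))
    (θ : Fin k → ℂ) (T h : ℕ) (hh : 2 * E ≤ h) :
    ((Finset.Icc 1 T).filter fun t => BadQ q n D θ h t).card ≤
      h ^ (3 * E) + h ^ 2 + (T / h ^ 2 + 1) * (h + s * (2 * h + 1)) := by
  set lm := h ^ 2 with hlm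
  have hh1 : 2 ≤ h := by omega
  have hlm1 : 1 ≤ lm := Nat.one_le_pow _ _ (by omega)
  have hhl : h ≤ lm := by rw [hlm]; nlinarith
  set W : Finset ℕ := (Finset.Icc 1 T).filter fun t => BadQ q n D θ h t with hW
  -- the part of large `t`
  set W1 : Finset ℕ := W.filter fun t => h ^ (3 * E) + lm < t with hW1
  have hsplit : W.card ≤ (h ^ (3 * E) + lm) + W1.card := by
    have h1 : W ⊆ (Finset.Icc 1 (h ^ (3 * E) + lm)) ∪ W1 := by
      intro t ht
      by_cases h2 : h ^ (3 * E) + lm < t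
      · exact Finset.mem_union_right _ (Finset.mem_filter.2 ⟨ht, h2⟩)
      · apply Finset.mem_union_left
        rw [hW, Finset.mem_filter, Finset.mem_Icc] at ht
        rw [Finset.mem_Icc]
        exact ⟨ht.1.1, by omega⟩
    calc W.card ≤ _ := Finset.card_le_card h1
      _ ≤ _ := Finset.card_union_le _ _
      _ = _ := by simp
  have hbl : W1.card ≤ (Finset.range (T / lm + 1)).card * (h + s * (2 * h + 1)) := by
    rw [mul_comm]
    refine Finset.card_le_mul_card_image_of_maps_to (f := fun t => (t - 1) / lm) ?_ _ ?_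
    · intro t ht
      rw [hW1, Finset.mem_filter, hW, Finset.mem_filter, Finset.mem_Icc] at ht
      rw [Finset.mem_range, Nat.lt_succ_iff]
      exact Nat.div_le_div_right (by omega)
    · intro j _
      -- the block `j`
      set F := W1.filter fun t => (t - 1) / lm = j with hF
      have hN : ∀ t ∈ F, (E * (lm + h)) ^ E ≤ j * lm ∧ (1 ≤ t - j * lm ∧ t - j * lm ≤ lm) ∧
          j * lm + (t - j * lm) = t ∧ BadQ q n D θ h t := by
        intro t ht
        rw [hF, Finset.mem_filter, hW1, Finset.mem_filter, hW, Finset.mem_filter,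
          Finset.mem_Icc] at ht
        obtain ⟨⟨⟨⟨h1, h2⟩, h3⟩, h4⟩, h5⟩ := ht
        have h6 : j * lm ≤ t - 1 := by
          rw [← h5]; exact Nat.div_mul_le_self _ _
        have h7 : t - 1 < (j + 1) * lm := by
          rw [← h5]
          exact Nat.lt_mul_of_div_lt (Nat.lt_succ_self _) (by omega)
        have h8 : (j + 1) * lm = j * lm + lm := by ring
        refine ⟨?_, ⟨by omega, by omega⟩, by omega, h3⟩
        have h9 : h ^ (3 * E) ≤ j * lm := by omega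
        refine le_trans ?_ h9
        calc (E * (lm + h)) ^ E ≤ (E * (2 * lm)) ^ E := Nat.pow_le_pow_left
              (Nat.mul_le_mul_left _ (by omega)) _
          _ = (2 * E * h ^ 2) ^ E := by rw [hlm]; ring_nf
          _ ≤ (h * h ^ 2) ^ E := Nat.pow_le_pow_left (Nat.mul_le_mul_right _ hh) _
          _ = h ^ (3 * E) := by rw [← pow_succ', ← pow_mul]
      by_cases hFe : F = ∅
      · rw [hFe]; simp
      obtain ⟨t0, ht0⟩ := Finset.nonempty_iff_ne_empty.2 hFe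
      have hNj := (hN t0 ht0).1
      have hwin := hw θ (j * lm) h lm hlm1 hNj
      have hsub : F ⊆ ((Finset.Icc 1 h).image fun b => j * lm + b) ∪
          (((Finset.Ioc h lm).filter fun b => BadQ q n D θ h (j * lm + b)).image
            fun b => j * lm + b) := by
        intro t ht
        obtain ⟨_, ⟨h1, h2⟩, h3, h4⟩ := hN t ht
        by_cases h5 : t - j * lm ≤ h
        · apply Finset.mem_union_left
          exact Finset.mem_image.2 ⟨t - j * lm, Finset.mem_Icc.2 ⟨h1, h5⟩, h3⟩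
        · apply Finset.mem_union_right
          refine Finset.mem_image.2 ⟨t - j * lm, Finset.mem_filter.2
            ⟨Finset.mem_Ioc.2 ⟨by omega, h2⟩, ?_⟩, h3⟩
          rw [h3]; exact h4
      calc F.card ≤ _ := Finset.card_le_card hsub
        _ ≤ _ := Finset.card_union_le _ _
        _ ≤ (Finset.Icc 1 h).card + ((Finset.Ioc h lm).filter fun b =>
            BadQ q n D θ h (j * lm + b)).card :=
            Nat.add_le_add Finset.card_image_le Finset.card_image_le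
        _ ≤ h + s * (2 * h + 1) := by
            rw [Nat.card_Icc]
            omega
  rw [Finset.card_range] at hbl
  omega

/-- the bound in terms of `T` -/
theorem final {s E K T h X : ℕ} (hE1 : 1 ≤ E) (hK1 : 6 * E ≤ K) (hT : 1 ≤ T)
    (hh1 : (h : ℝ) ≤ (T : ℝ) ^ (1 / (K : ℝ))) (hh2 : (T : ℝ) ^ (1 / (K : ℝ)) < h + 1)
    (hX : X ≤ T) (hX2 : 2 * E ≤ h → X ≤ h ^ (3 * E) + h ^ 2 + (T / h ^ 2 + 1) *
      (h + s * (2 * h + 1))) :
    (X : ℝ) ≤ (9 * s + 5 + 2 * E : ℕ) * (T : ℝ) ^ (1 - 1 / (K : ℝ)) := by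
  have hTr : (1 : ℝ) ≤ T := by exact_mod_cast hT
  have hT0 : (0 : ℝ) < T := by linarith
  have hK0 : (0 : ℝ) < K := by exact_mod_cast (by omega : 0 < K)
  have hK6 : (6 : ℝ) * E ≤ K := by exact_mod_cast hK1
  have hEr : (1 : ℝ) ≤ E := by exact_mod_cast hE1
  set y : ℝ := (T : ℝ) ^ (1 / (K : ℝ)) with hy
  set Z : ℝ := (T : ℝ) ^ (1 - 1 / (K : ℝ)) with hZ
  have hy1 : 1 ≤ y := Real.one_le_rpow hTr (by positivity)
  have hZ0 : 0 < Z := Real.rpow_pos_of_pos hT0 _
  have hyZ : y * Z = T := by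
    rw [hy, hZ, ← Real.rpow_add hT0]
    have : 1 / (K : ℝ) + (1 - 1 / (K : ℝ)) = 1 := by ring
    rw [this, Real.rpow_one]
  have hpow : ∀ m : ℕ, (m : ℝ) + 1 ≤ K → y ^ m ≤ Z := by
    intro m hm
    rw [hy, ← Real.rpow_natCast, ← Real.rpow_mul hT0.le, hZ]
    apply Real.rpow_le_rpow_of_exponent_le hTr
    have : 1 / (K : ℝ) * m = m / K := by ring
    rw [this, div_le_iff₀ hK0, sub_mul, one_mul, one_div, inv_mul_cancel₀ hK0.ne']
    linarith
  by_cases hc : 2 * E ≤ h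
  · have h1 := hX2 hc
    have h1r : (X : ℝ) ≤ (h : ℝ) ^ (3 * E) + (h : ℝ) ^ 2 +
        ((T : ℝ) / (h : ℝ) ^ 2 + 1) * (h + s * (2 * h + 1)) := by
      have h2 : (X : ℝ) ≤ ((h ^ (3 * E) + h ^ 2 + (T / h ^ 2 + 1) *
        (h + s * (2 * h + 1)) : ℕ) : ℝ) := by exact_mod_cast h1
      refine h2.trans ?_
      push_cast
      have h3 : ((T / h ^ 2 : ℕ) : ℝ) ≤ (T : ℝ) / (h : ℝ) ^ 2 := by
        have := @Nat.cast_div_le ℝ _ _ _ T (h ^ 2)
        simpa using this
      gcongr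
    have hh0 : (2 : ℝ) ≤ h := by exact_mod_cast (by omega : 2 ≤ h)
    have hhpos : (0 : ℝ) < h := by linarith
    have hyh : y ≤ 2 * h := by linarith
    have a1 : (h : ℝ) ^ (3 * E) ≤ Z :=
      (pow_le_pow_left₀ hhpos.le hh1 _).trans (hpow _ (by push_cast; linarith))
    have a2 : (h : ℝ) ^ 2 ≤ Z := (pow_le_pow_left₀ hhpos.le hh1 _).trans (hpow 2 (by
      push_cast; linarith))
    have a3 : (h : ℝ) ≤ Z := by
      have := (pow_le_pow_left₀ hhpos.le hh1 1).trans (hpow 1 (by push_cast; linarith))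
      simpa using this
    have a4 : (T : ℝ) / h ≤ 2 * Z := by
      rw [div_le_iff₀ hhpos, ← hyZ]
      nlinarith
    have a5 : (h : ℝ) + s * (2 * h + 1) ≤ (3 * s + 1) * h := by
      have : (0 : ℝ) ≤ s := Nat.cast_nonneg s
      nlinarith
    have a6 : ((T : ℝ) / (h : ℝ) ^ 2 + 1) * (h + s * (2 * h + 1)) ≤ (3 * s + 1) * (3 * Z) := by
      calc ((T : ℝ) / (h : ℝ) ^ 2 + 1) * (h + s * (2 * h + 1))
          ≤ ((T : ℝ) / (h : ℝ) ^ 2 + 1) * ((3 * s + 1) * h) :=
            mul_le_mul_of_nonneg_left a5 (by positivity)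
        _ = (3 * s + 1) * (T / h + h) := by field_simp
        _ ≤ (3 * s + 1) * (3 * Z) := by
            apply mul_le_mul_of_nonneg_left _ (by positivity)
            linarith
    have : (0 : ℝ) ≤ E := by linarith
    push_cast
    nlinarith
  · have hy2 : y ≤ 2 * E := by
      have : (h : ℝ) + 1 ≤ 2 * E := by exact_mod_cast (by omega : h + 1 ≤ 2 * E)
      linarith
    have h2 : (X : ℝ) ≤ T := by exact_mod_cast hX
    calc (X : ℝ) ≤ T := h2
      _ = y * Z := hyZ.symm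
      _ ≤ (2 * E) * Z := mul_le_mul_of_nonneg_right hy2 hZ0.le
      _ ≤ _ := by
          apply mul_le_mul_of_nonneg_right _ hZ0.le
          push_cast
          have : (0 : ℝ) ≤ s := Nat.cast_nonneg s
          linarith

end MAIN_

open MAIN_ in
theorem p_MAIN (hP : T_PROD) (hEl : T_ELIM) : T_MAIN := by
  classical
  intro n q k D
  choose s hs using fun q => hEl q n k D
  choose E hE1 hE using fun q => hP q n (s q)
  set K : ℕ := ∑ p ∈ range (q + 1), (6 * E p + (9 * s p + 5 + 2 * E p)) with hK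
  have hKle : ∀ p ∈ range (q + 1), 6 * E p ≤ K := by
    intro p hp
    have := Finset.single_le_sum (f := fun p => 6 * E p + (9 * s p + 5 + 2 * E p))
      (fun _ _ => Nat.zero_le _) hp
    omega
  have hK1 : 1 ≤ K := by
    have := hKle 0 (by simp)
    have := hE1 0
    omega
  refine ⟨K, hK1, fun θ T hT => ?_⟩
  have hTr : (1 : ℝ) ≤ T := by exact_mod_cast hT
  have hT0 : (0 : ℝ) < T := by linarith
  have hKr : (0 : ℝ) < K := by exact_mod_cast hK1
  set y : ℝ := (T : ℝ) ^ (1 / (K : ℝ)) with hy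
  set h : ℕ := ⌊y⌋₊ with hh
  have hy0 : 0 ≤ y := Real.rpow_nonneg hT0.le _
  have hh1 : (h : ℝ) ≤ y := Nat.floor_le hy0
  have hh2 : y < h + 1 := Nat.lt_floor_add_one y
  -- letters
  have hlet : ∀ a : ℤ, |a| ^ K ≤ (T : ℤ) → |a| ≤ (h : ℤ) := by
    intro a ha
    have h1 : ((a.natAbs : ℕ) : ℝ) ≤ y := by
      have h2 : ((a.natAbs : ℕ) : ℝ) ^ K ≤ T := by
        have h3 : ((a.natAbs : ℕ) : ℤ) ^ K ≤ T := by rw [Int.natCast_natAbs]; exact ha
        exact_mod_cast h3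
      rw [hy, one_div]
      rw [Real.le_rpow_inv_iff_of_pos (by positivity) hT0.le hKr, Real.rpow_natCast]
      exact h2
    have h4 : a.natAbs ≤ h := Nat.le_floor h1
    have h5 : |a| = (a.natAbs : ℤ) := (Int.natCast_natAbs a).symm
    rw [h5]
    exact_mod_cast h4
  set W : ℕ → Finset ℕ := fun p => (Finset.Icc 1 T).filter fun t => BadQ p n D θ h t with hW
  have hcover : {t : ℕ | (1 ≤ t ∧ t ≤ T) ∧ ∃ A : Finset ℤ, A.card ≤ q ∧
      (∀ a ∈ A, a ≠ 0 ∧ |a| ^ K ≤ (T : ℤ)) ∧ Bad n D θ A t} ⊆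
      (((range (q + 1)).biUnion W : Finset ℕ) : Set ℕ) := by
    rintro t ⟨ht, A, hA1, hA2, hA3⟩
    rw [Finset.mem_coe, Finset.mem_biUnion]
    refine ⟨A.card, Finset.mem_range.2 (by omega), ?_⟩
    rw [hW]
    exact Finset.mem_filter.2 ⟨Finset.mem_Icc.2 ht,
      bad_to (fun a ha => ⟨(hA2 a ha).1, hlet a (hA2 a ha).2⟩) hA3⟩
  have hcard : (({t : ℕ | (1 ≤ t ∧ t ≤ T) ∧ ∃ A : Finset ℤ, A.card ≤ q ∧
      (∀ a ∈ A, a ≠ 0 ∧ |a| ^ K ≤ (T : ℤ)) ∧ Bad n D θ A t}).ncard : ℝ) ≤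
      ∑ p ∈ range (q + 1), ((W p).card : ℝ) := by
    have h1 := Set.ncard_le_ncard hcover (Finset.finite_toSet _)
    rw [Set.ncard_coe_finset] at h1
    have h2 := h1.trans Finset.card_biUnion_le
    exact_mod_cast h2
  refine hcard.trans ?_
  have hterm : ∀ p ∈ range (q + 1), ((W p).card : ℝ) ≤
      ((9 * s p + 5 + 2 * E p : ℕ) : ℝ) * (T : ℝ) ^ (1 - 1 / (K : ℝ)) := by
    intro p hp
    refine final (hE1 p) (hKle p hp) hT hh1 hh2 ?_ ?_
    · calc (W p).card ≤ (Finset.Icc 1 T).card := Finset.card_filter_le _ _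
        _ = T := by simp
    · intro hhE
      exact count (hE1 p) (fun θ N h lm h1 h2 => window (hs p) (hE p) θ N h lm h1 h2) θ T h hhE
  refine (Finset.sum_le_sum hterm).trans ?_
  rw [← Finset.sum_mul]
  apply mul_le_mul_of_nonneg_right _ (Real.rpow_nonneg hT0.le _)
  rw [← Nat.cast_sum]
  have : ∑ p ∈ range (q + 1), (9 * s p + 5 + 2 * E p) ≤ K := by
    rw [hK]
    exact Finset.sum_le_sum fun p _ => by omega
  exact_mod_cast this

end Pool.Agent.HYP
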