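import Pool.Agent.HYP.Targets

set_option autoImplicit false

/-!
Reduction of the count for several points to the count for one point (`T_MULTI`).
-/

namespace Pool.Agent.HYP

namespace MULTI_

open Finset
open scoped BigOperators

/-- enumeration of the letters -/
theorem enum {q K T : ℕ} (hT : 1 ≤ T) (A : Finset ℤ) (hA : A.card ≤ q)
    (h : ∀ a ∈ A, a ≠ 0 ∧ |a| ^ K ≤ (T : ℤ)) :
    ∃ a : Fin q → ℤ, (∀ j, a j ≠ 0 ∧ |a j| ^ K ≤ (T : ℤ)) ∧ ∀ x ∈ A, ∃ j, a j = x := by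
  classical
  let e := A.equivFin
  refine ⟨fun j => if hj : (j : ℕ) < A.card then (e.symm ⟨j, hj⟩ : ℤ) else 1, ?_, ?_⟩
  · intro j
    by_cases hj : (j : ℕ) < A.card
    · simp only [hj, dif_pos]
      exact h _ (e.symm ⟨j, hj⟩).2
    · simp only [hj, dif_neg, not_false_iff]
      refine ⟨one_ne_zero, ?_⟩
      rw [abs_one, one_pow]
      exact_mod_cast hT
  · intro x hx
    refine ⟨⟨e ⟨x, hx⟩, lt_of_lt_of_le (e ⟨x, hx⟩).2 hA⟩, ?_⟩
    simp

theorem repr {q n : ℕ} (A : Finset ℤ) (a : Fin q → ℤ) (hA : ∀ x ∈ A, ∃ j, a j = x)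
    (p : List ℤ × ℕ) (hp : p ∈ Ix n A) : ∃ u : I0 q n, (wd a u.1.1, u.1.2) = p := by
  classical
  obtain ⟨h1, h2, h3⟩ := hp
  let g : ℤ → Option (Fin q) := fun x =>
    if x = 0 then none else if hx : ∃ j, a j = x then some hx.choose else none
  have hg1 : ∀ x ∈ p.1, g x = none → x = 0 := by
    intro x hx hgx
    by_contra hx0
    have hxA : ∃ j, a j = x := by
      rcases h2 x hx with h | h
      · exact absurd h hx0
      · exact hA x h
    simp only [g, if_neg hx0, dif_pos hxA] at hgx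
    exact absurd hgx (by simp)
  have hg2 : ∀ x ∈ p.1, (g x).elim 0 a = x := by
    intro x hx
    by_cases hx0 : x = 0
    · simp only [g, if_pos hx0]
      exact hx0.symm
    · have hxA : ∃ j, a j = x := by
        rcases h2 x hx with h | h
        · exact absurd h hx0
        · exact hA x h
      simp only [g, if_neg hx0, dif_pos hxA]
      exact hxA.choose_spec
  have hw : wd a (p.1.map g) = p.1 := by
    unfold wd
    rw [List.map_map]
    conv_rhs => rw [← List.map_id p.1]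
    apply List.map_congr_left
    intro x hx
    exact hg2 x hx
  refine ⟨⟨(p.1.map g, p.2), ?_, ?_⟩, ?_⟩
  · simpa using h1
  · intro hl
    simp only at hl
    rw [List.getLast?_map, Option.map_eq_some_iff] at hl
    obtain ⟨x, hx1, hx2⟩ := hl
    have hx0 : x = 0 := hg1 x (List.mem_of_getLast? hx1) hx2
    rw [hx0] at hx1
    exact h3 hx1
  · exact Prod.ext hw rfl

/-- the new base -/
noncomputable def th {k q : ℕ} (n : ℕ) (θ : Fin k → ℂ) (a : Fin q → ℤ) (t : ℕ) :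
    Fin (k + Fintype.card (I0 q n)) → ℂ :=
  Fin.append θ fun j =>
    (hv (wd a ((Fintype.equivFin (I0 q n)).symm j).1.1) t : ℂ) *
      (Real.log t : ℂ) ^ ((Fintype.equivFin (I0 q n)).symm j).1.2

theorem exc_cases {k q n r D : ℕ} (θ : Fin k → ℂ) (A : Fin (r + 1) → Finset ℤ)
    (a : Fin q → ℤ) (ha : ∀ x ∈ A 0, ∃ j, a j = x) (t : Fin (r + 1) → ℕ)
    (h : BadM n D θ A t) : Bad n D θ (A 0) (t 0) ∨
      BadM n (D + 1) (th n θ a (t 0)) (fun l => A l.succ) (Fin.tail t) := by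
  classical
  obtain ⟨c, hc, ⟨p1, hp1⟩, hs⟩ := h
  have hrep : ∀ p : List ℤ × ℕ, ∃ u : I0 q n, p ∈ Ix n (A 0) → (wd a u.1.1, u.1.2) = p := by
    intro p
    by_cases hp : p ∈ Ix n (A 0)
    · obtain ⟨u, hu⟩ := repr (A 0) a ha p hp
      exact ⟨u, fun _ => hu⟩
    · exact ⟨⟨([], 0), by simp⟩, fun h => absurd h hp⟩
  choose U hU using hrep
  set e := Fintype.equivFin (I0 q n) with he
  set θ' := th n θ a (t 0) with hθ'
  have hval : ∀ p ∈ Ix n (A 0), θ' (Fin.natAdd k (e (U p))) =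
      (hv p.1 (t 0) : ℂ) * (Real.log (t 0) : ℂ) ^ p.2 := by
    intro p hp
    have h1 := hU p hp
    have h2 : wd a (U p).1.1 = p.1 := congrArg Prod.fst h1
    have h3 : (U p).1.2 = p.2 := congrArg Prod.snd h1
    simp only [hθ', th, Fin.append_right, ← he, Equiv.symm_apply_apply]
    rw [h2, h3]
  let g : (Fin (r + 1) → List ℤ × ℕ) → MvPolynomial (Fin (k + Fintype.card (I0 q n))) ℤ :=
    fun p => MvPolynomial.rename (Fin.castAdd _) (c p) *
      MvPolynomial.X (Fin.natAdd k (e (U (p 0))))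
  have hg : ∀ p ∈ c.support, MvPolynomial.aeval θ' (g p) = MvPolynomial.aeval θ (c p) *
      ((hv (p 0).1 (t 0) : ℂ) * (Real.log (t 0) : ℂ) ^ (p 0).2) := by
    intro p hp
    simp only [g, map_mul, MvPolynomial.aeval_X]
    rw [hval _ ((hc p hp).1 0), MvPolynomial.aeval_rename]
    congr 2
    congr 1
    funext i
    simp only [Function.comp, hθ', th, Fin.append_left]
  have hgd : ∀ p ∈ c.support, (g p).totalDegree ≤ D + 1 := by
    intro p hp
    refine (MvPolynomial.totalDegree_mul _ _).trans ?_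
    have h1 := (MvPolynomial.totalDegree_rename_le (Fin.castAdd (Fintype.card (I0 q n)))
      (c p)).trans (hc p hp).2
    have h2 : (MvPolynomial.X (Fin.natAdd k (e (U (p 0)))) :
        MvPolynomial (Fin (k + Fintype.card (I0 q n))) ℤ).totalDegree ≤ 1 :=
      (MvPolynomial.totalDegree_X _).le
    omega
  let c' : (Fin r → List ℤ × ℕ) →₀ MvPolynomial (Fin (k + Fintype.card (I0 q n))) ℤ :=
    ∑ p ∈ c.support, Finsupp.single (Fin.tail p) (g p)
  have hc' : ∀ p', c' p' = ∑ p ∈ c.support with Fin.tail p = p', g p := by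
    intro p'
    simp only [c', Finsupp.finsetSum_apply, Finsupp.single_apply, Finset.sum_filter]
  by_cases hQ : ∀ p', MvPolynomial.aeval θ' (c' p') = 0
  · left
    have hinj : Function.Injective (fun p0 : List ℤ × ℕ =>
        (Fin.cons p0 (Fin.tail p1) : Fin (r + 1) → List ℤ × ℕ)) := by
      intro x y hxy
      have h0 := congrFun hxy 0
      simpa only [Fin.cons_zero] using h0
    refine ⟨c.comapDomain (fun p0 : List ℤ × ℕ =>
        (Fin.cons p0 (Fin.tail p1) : Fin (r + 1) → List ℤ × ℕ)) hinj.injOn, ?_, ⟨p1 0, ?_⟩, ?_⟩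
    · intro p hp
      rw [Finsupp.mem_support_iff, Finsupp.comapDomain_apply] at hp
      have hp' : (Fin.cons p (Fin.tail p1) : Fin (r + 1) → List ℤ × ℕ) ∈ c.support :=
        Finsupp.mem_support_iff.2 hp
      have h1 := hc _ hp'
      refine ⟨?_, ?_⟩
      · simpa using h1.1 0
      · rw [Finsupp.comapDomain_apply]
        exact h1.2
    · rw [Finsupp.comapDomain_apply]
      have h2 : (Fin.cons (p1 0) (Fin.tail p1) : Fin (r + 1) → List ℤ × ℕ) = p1 :=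
        Fin.cons_self_tail p1
      rw [h2]
      exact hp1
    · have h1 := hQ (Fin.tail p1)
      rw [hc', map_sum] at h1
      rw [← h1]
      unfold Finsupp.sum
      refine Finset.sum_bij (fun p0 _ => (Fin.cons p0 (Fin.tail p1) :
        Fin (r + 1) → List ℤ × ℕ)) ?_ ?_ ?_ ?_
      · intro p0 hp0
        rw [Finset.mem_filter]
        refine ⟨?_, Fin.tail_cons _ _⟩
        rw [Finsupp.mem_support_iff, Finsupp.comapDomain_apply] at hp0
        exact Finsupp.mem_support_iff.2 hp0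
      · intro x _ y _ hxy
        exact hinj hxy
      · intro p hp
        rw [Finset.mem_filter] at hp
        have h2 : (Fin.cons (p 0) (Fin.tail p1) : Fin (r + 1) → List ℤ × ℕ) = p := by
          rw [← hp.2]
          exact Fin.cons_self_tail p
        refine ⟨p 0, ?_, h2⟩
        rw [Finsupp.mem_support_iff, Finsupp.comapDomain_apply, h2]
        exact Finsupp.mem_support_iff.1 hp.1
      · intro p0 hp0
        rw [Finsupp.mem_support_iff, Finsupp.comapDomain_apply] at hp0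
        rw [hg _ (Finsupp.mem_support_iff.2 hp0), Finsupp.comapDomain_apply]
        simp only [Fin.cons_zero]
        ring
  · right
    push Not at hQ
    obtain ⟨p', hp'⟩ := hQ
    refine ⟨c', ?_, ⟨p', hp'⟩, ?_⟩
    · intro p hp
      rw [Finsupp.mem_support_iff, hc'] at hp
      obtain ⟨p2, hp2, -⟩ := Finset.exists_ne_zero_of_sum_ne_zero hp
      rw [Finset.mem_filter] at hp2
      refine ⟨?_, ?_⟩
      · intro l
        rw [← hp2.2]
        exact (hc p2 hp2.1).1 l.succ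
      · rw [hc']
        apply MvPolynomial.totalDegree_finsetSum_le
        intro p3 hp3
        exact hgd p3 (Finset.mem_filter.1 hp3).1
    · have h1 : ∀ F : (Fin r → List ℤ × ℕ) → ℂ,
          c'.sum (fun p x => MvPolynomial.aeval θ' x * F p) =
          ∑ p ∈ c.support, MvPolynomial.aeval θ' (g p) * F (Fin.tail p) := by
        intro F
        simp only [c']
        rw [← Finsupp.sum_finsetSum_index]
        · refine Finset.sum_congr rfl fun p _ => ?_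
          rw [Finsupp.sum_single_index]
          simp
        · intro p
          simp
        · intro p x y
          rw [map_add, add_mul]
      rw [h1, ← hs]
      unfold Finsupp.sum
      refine Finset.sum_congr rfl fun p hp => ?_
      rw [hg p hp]
      simp only [Fin.prod_univ_succ, Fin.tail]
      ring

/-- the box -/
def box (n T : ℕ) : Set (Fin n → ℕ) := {t | ∀ i, 1 ≤ t i ∧ t i ≤ T}

theorem box_eq (n T : ℕ) : box n T =
    ((Fintype.piFinset (fun _ : Fin n => Finset.Icc 1 T) : Finset (Fin n → ℕ)) :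
        Set (Fin n → ℕ)) := by
  ext x
  simp only [box, Set.mem_ofPred_eq, Finset.mem_coe, Fintype.mem_piFinset, Finset.mem_Icc]

theorem ncard_box (n T : ℕ) : (box n T).ncard = T ^ n := by
  rw [box_eq, Set.ncard_coe_finset, Fintype.card_piFinset]
  simp

theorem finite_box (n T : ℕ) : (box n T).Finite := by
  rw [box_eq]
  exact Finset.finite_toSet _

/-- exceptional numbers -/
def E1 (n q : ℕ) {k : ℕ} (D K T : ℕ) (θ : Fin k → ℂ) : Set ℕ :=
  {t : ℕ | (1 ≤ t ∧ t ≤ T) ∧ ∃ A : Finset ℤ, A.card ≤ q ∧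
    (∀ a ∈ A, a ≠ 0 ∧ |a| ^ K ≤ (T : ℤ)) ∧ Bad n D θ A t}

/-- exceptional tuples -/
def En (n q r : ℕ) {k : ℕ} (D K T : ℕ) (θ : Fin k → ℂ) : Set (Fin r → ℕ) :=
  {t : Fin r → ℕ | (∀ l, 1 ≤ t l ∧ t l ≤ T) ∧ ∃ A : Fin r → Finset ℤ,
    (∀ l, (A l).card ≤ q ∧ ∀ a ∈ A l, a ≠ 0 ∧ |a| ^ K ≤ (T : ℤ)) ∧ BadM n D θ A t}

theorem pow_mono {K1 K T : ℕ} (h : K1 ≤ K) {a : ℤ} (ha : a ≠ 0) (h1 : |a| ^ K ≤ (T : ℤ)) :
    |a| ^ K1 ≤ (T : ℤ) :=
  (pow_le_pow_right₀ (Int.one_le_abs ha) h).trans h1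

theorem E1_mono {n q k D K1 K T : ℕ} (θ : Fin k → ℂ) (h : K1 ≤ K) :
    E1 n q D K T θ ⊆ E1 n q D K1 T θ := by
  rintro t ⟨h1, A, h2, h3, h4⟩
  exact ⟨h1, A, h2, fun a ha => ⟨(h3 a ha).1, pow_mono h (h3 a ha).1 (h3 a ha).2⟩, h4⟩

theorem En_mono {n q r k D K1 K T : ℕ} (θ : Fin k → ℂ) (h : K1 ≤ K) :
    En n q r D K T θ ⊆ En n q r D K1 T θ := by
  rintro t ⟨h1, A, h2, h4⟩
  exact ⟨h1, A, fun l => ⟨(h2 l).1, fun a ha =>
    ⟨((h2 l).2 a ha).1, pow_mono h ((h2 l).2 a ha).1 ((h2 l).2 a ha).2⟩⟩, h4⟩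

/-- the tuples of letters -/
theorem letters (q K T : ℕ) (hK : 1 ≤ K) (hT : 1 ≤ T) :
    ∃ S : Finset (Fin q → ℤ), (∀ a : Fin q → ℤ, (∀ j, a j ≠ 0 ∧ |a j| ^ K ≤ (T : ℤ)) → a ∈ S) ∧
      (S.card : ℝ) ≤ 3 ^ q * (T : ℝ) ^ ((q : ℝ) / K) := by
  have hT1 : (1 : ℝ) ≤ (T : ℝ) := by exact_mod_cast hT
  have hT0 : (0 : ℝ) < (T : ℝ) := by linarith
  have hK0 : (0 : ℝ) < (K : ℝ) := by exact_mod_cast hK
  set X : ℝ := (T : ℝ) ^ (1 / (K : ℝ)) with hX
  have hX1 : 1 ≤ X := Real.one_le_rpow hT1 (by positivity)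
  set h : ℤ := ⌊X⌋ with hh
  refine ⟨Fintype.piFinset fun _ => Finset.Icc (-h) h, ?_, ?_⟩
  · intro a ha
    rw [Fintype.mem_piFinset]
    intro j
    rw [Finset.mem_Icc, ← abs_le, hh, Int.le_floor]
    have h1 : ((|a j| : ℤ) : ℝ) ^ K ≤ (T : ℝ) := by exact_mod_cast (ha j).2
    have h2 : (0 : ℝ) ≤ ((|a j| : ℤ) : ℝ) := by exact_mod_cast abs_nonneg (a j)
    calc ((|a j| : ℤ) : ℝ) = (((|a j| : ℤ) : ℝ) ^ K) ^ (1 / (K : ℝ)) := by
          rw [← Real.rpow_natCast, ← Real.rpow_mul h2, mul_one_div_cancel hK0.ne',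
            Real.rpow_one]
      _ ≤ X := Real.rpow_le_rpow (by positivity) h1 (by positivity)
  · rw [Fintype.card_piFinset, Finset.prod_const, Finset.card_univ, Fintype.card_fin,
      Int.card_Icc]
    push_cast
    have h0 : (0 : ℤ) ≤ h := by
      rw [hh]
      exact Int.floor_nonneg.2 (by linarith)
    have h1 : (((h + 1 - -h).toNat : ℕ) : ℝ) ≤ 3 * X := by
      have h2 : (((h + 1 - -h).toNat : ℕ) : ℤ) = h + 1 - -h := Int.toNat_of_nonneg (by omega)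
      have h3 : (((h + 1 - -h).toNat : ℕ) : ℝ) = (h : ℝ) + 1 + h := by
        have := congrArg (Int.cast : ℤ → ℝ) h2
        push_cast at this
        linarith
      have h4 : (h : ℝ) ≤ X := Int.floor_le X
      rw [h3]
      linarith
    calc (((h + 1 - -h).toNat : ℕ) : ℝ) ^ q ≤ (3 * X) ^ q :=
          pow_le_pow_left₀ (Nat.cast_nonneg _) h1 q
      _ = 3 ^ q * (T : ℝ) ^ ((q : ℝ) / K) := by
          rw [mul_pow, hX, ← Real.rpow_natCast (_ ^ _) q, ← Real.rpow_mul hT0.le]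
          congr 2
          ring

theorem count_le (n q r k D K : ℕ) (hK : 1 ≤ K) (θ : Fin k → ℂ) (T : ℕ) (hT : 1 ≤ T) (M : ℝ)
    (hM0 : 0 ≤ M)
    (hM : ∀ θ' : Fin (k + Fintype.card (I0 q n)) → ℂ,
      ((En n q r (D + 1) K T θ').ncard : ℝ) ≤ M) :
    ((En n q (r + 1) D K T θ).ncard : ℝ) ≤
      ((E1 n q D K T θ).ncard : ℝ) * (T : ℝ) ^ r +
        T * (3 ^ q * (T : ℝ) ^ ((q : ℝ) / K) * M) := by
  classical
  obtain ⟨S, hS1, hS2⟩ := letters q K T hK hT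
  set A : Set ℕ := E1 n q D K T θ with hA
  set B : Set (Fin r → ℕ) := box r T with hB
  set E : ℕ → (Fin q → ℤ) → Set (Fin r → ℕ) := fun t0 a =>
    En n q r (D + 1) K T (th n θ a t0) with hE
  have hAf : A.Finite := (Set.finite_Icc 1 T).subset fun t ht => ht.1
  have hBf : B.Finite := finite_box r T
  have hEf : ∀ t0 a, (E t0 a).Finite := fun t0 a => hBf.subset fun t ht => ht.1
  let cn : ℕ → (Fin r → ℕ) → (Fin (r + 1) → ℕ) := fun a b => Fin.cons a b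
  let U1 : Set (Fin (r + 1) → ℕ) := (fun p : ℕ × (Fin r → ℕ) => cn p.1 p.2) '' (A ×ˢ B)
  let U2 : Set (Fin (r + 1) → ℕ) :=
    ⋃ x ∈ (Finset.Icc 1 T) ×ˢ S, (cn x.1) '' (E x.1 x.2)
  have hU1f : U1.Finite := (hAf.prod hBf).image _
  have hU2f : U2.Finite :=
    Set.Finite.biUnion (Finset.finite_toSet _) fun a _ => (hEf a.1 a.2).image _
  have hsub : En n q (r + 1) D K T θ ⊆ U1 ∪ U2 := by
    rintro t ⟨htp, A', hA', ht⟩
    have h0 : 1 ≤ t 0 ∧ t 0 ≤ T := htp 0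
    have htl : Fin.tail t ∈ B := fun i => htp i.succ
    obtain ⟨a, ha1, ha2⟩ := enum (q := q) hT (A' 0) (hA' 0).1 (hA' 0).2
    rcases exc_cases θ A' a ha2 t ht with h | h
    · left
      exact ⟨(t 0, Fin.tail t), ⟨⟨h0, A' 0, (hA' 0).1, (hA' 0).2, h⟩, htl⟩,
        Fin.cons_self_tail t⟩
    · right
      simp only [U2, Set.mem_iUnion]
      exact ⟨(t 0, a), Finset.mem_product.2 ⟨Finset.mem_Icc.2 h0, hS1 a ha1⟩, Fin.tail t,
        ⟨htl, fun l => A' l.succ, fun l => hA' l.succ, h⟩, Fin.cons_self_tail t⟩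
  have hc1 : U1.ncard ≤ A.ncard * T ^ r := by
    calc U1.ncard ≤ (A ×ˢ B).ncard := Set.ncard_image_le (hAf.prod hBf)
      _ = A.ncard * B.ncard := Set.ncard_prod
      _ = A.ncard * T ^ r := by rw [hB, ncard_box]
  have hc2 : U2.ncard ≤ ∑ x ∈ (Finset.Icc 1 T) ×ˢ S, (E x.1 x.2).ncard := by
    calc U2.ncard ≤ ∑ x ∈ (Finset.Icc 1 T) ×ˢ S, ((cn x.1) '' (E x.1 x.2)).ncard :=
          Finset.set_ncard_biUnion_le _ _
      _ ≤ ∑ x ∈ (Finset.Icc 1 T) ×ˢ S, (E x.1 x.2).ncard :=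
          Finset.sum_le_sum fun a _ => Set.ncard_image_le (hEf a.1 a.2)
  have hc3 : (∑ x ∈ (Finset.Icc 1 T) ×ˢ S, ((E x.1 x.2).ncard : ℝ)) ≤
      T * (3 ^ q * (T : ℝ) ^ ((q : ℝ) / K) * M) := by
    calc (∑ x ∈ (Finset.Icc 1 T) ×ˢ S, ((E x.1 x.2).ncard : ℝ))
        ≤ ∑ x ∈ (Finset.Icc 1 T) ×ˢ S, M := Finset.sum_le_sum fun a _ => hM _
      _ = T * ((S.card : ℝ) * M) := by
          rw [Finset.sum_const, Finset.card_product, Nat.card_Icc, nsmul_eq_mul]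
          push_cast [Nat.add_sub_cancel]
          ring
      _ ≤ T * (3 ^ q * (T : ℝ) ^ ((q : ℝ) / K) * M) := by
          gcongr
  have hc4 : (En n q (r + 1) D K T θ).ncard ≤ U1.ncard + U2.ncard :=
    (Set.ncard_le_ncard hsub (hU1f.union hU2f)).trans (Set.ncard_union_le _ _)
  calc ((En n q (r + 1) D K T θ).ncard : ℝ)
      ≤ (U1.ncard : ℝ) + (U2.ncard : ℝ) := by exact_mod_cast hc4
    _ ≤ (A.ncard : ℝ) * (T : ℝ) ^ r + ∑ x ∈ (Finset.Icc 1 T) ×ˢ S, ((E x.1 x.2).ncard : ℝ) := by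
        have h1 : (U1.ncard : ℝ) ≤ (A.ncard : ℝ) * (T : ℝ) ^ r := by exact_mod_cast hc1
        have h2 : (U2.ncard : ℝ) ≤ ∑ x ∈ (Finset.Icc 1 T) ×ˢ S, ((E x.1 x.2).ncard : ℝ) := by
          exact_mod_cast hc2
        linarith
    _ ≤ _ := by linarith

theorem inv_le {K1 K : ℕ} (h1 : 1 ≤ K1) (h : K1 ≤ K) : 1 / (K : ℝ) ≤ 1 / (K1 : ℝ) := by
  have h1' : (0 : ℝ) < (K1 : ℝ) := by exact_mod_cast h1
  have h' : (K1 : ℝ) ≤ (K : ℝ) := by exact_mod_cast h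
  exact one_div_le_one_div_of_le h1' h'

theorem E1_finite {n q k D K T : ℕ} (θ : Fin k → ℂ) : (E1 n q D K T θ).Finite :=
  (Set.finite_Icc 1 T).subset fun _ ht => ht.1

theorem En_finite {n q r k D K T : ℕ} (θ : Fin k → ℂ) : (En n q r D K T θ).Finite :=
  (finite_box r T).subset fun _ ht => ht.1

/-- the statement for fixed `r` -/
def Mu (n q r : ℕ) : Prop := ∀ D k : ℕ, ∃ K : ℕ, 1 ≤ K ∧ ∀ (θ : Fin k → ℂ) (T : ℕ), 1 ≤ T →
  ((En n q r D K T θ).ncard : ℝ) ≤ K * (T : ℝ) ^ ((r : ℝ) - 1 / (K : ℝ))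

theorem mu_zero (n q : ℕ) : Mu n q 0 := by
  intro D k
  refine ⟨1, le_refl 1, fun θ T hT => ?_⟩
  have h : En n q 0 D 1 T θ = ∅ := by
    ext t
    simp only [Set.mem_empty_iff_false, iff_false]
    rintro ⟨-, A, -, c, -, ⟨p, hp⟩, hs⟩
    apply hp
    unfold Finsupp.sum at hs
    rw [Finset.sum_eq_single p] at hs
    · simpa using hs
    · intro b _ hb
      exact absurd (Subsingleton.elim b p) hb
    · intro hp'
      rw [Finsupp.notMem_support_iff] at hp'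
      rw [hp']
      simp
  rw [h, Set.ncard_empty]
  have h1 : (0 : ℝ) ≤ (T : ℝ) ^ (((0 : ℕ) : ℝ) - 1 / (((1 : ℕ) : ℝ))) :=
    Real.rpow_nonneg (Nat.cast_nonneg T) _
  have h2 : (0 : ℝ) ≤ ((1 : ℕ) : ℝ) := by norm_num
  simpa using mul_nonneg h2 h1

theorem mu_succ (hone : T_MAIN) (n q r : ℕ) (ih : Mu n q r) : Mu n q (r + 1) := by
  intro D k
  obtain ⟨K1, hK1, h1⟩ := hone n q k D
  obtain ⟨K2, hK2, h2⟩ := ih (D + 1) (k + Fintype.card (I0 q n))
  have h3q : 1 ≤ 3 ^ q := Nat.one_le_pow _ _ (by norm_num)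
  set K : ℕ := K1 + 3 ^ q * K2 + (q + 1) * K2 with hKdef
  have hKK1 : K1 ≤ K := by
    rw [hKdef, add_assoc]
    exact Nat.le_add_right _ _
  have hKK2 : (q + 1) * K2 ≤ K := by
    rw [hKdef]
    exact Nat.le_add_left _ _
  have hKK3 : K2 ≤ K := (Nat.le_mul_of_pos_left K2 (Nat.succ_pos q)).trans hKK2
  have hKK4 : K1 + 3 ^ q * K2 ≤ K := by
    rw [hKdef]
    exact Nat.le_add_right _ _
  have hK : 1 ≤ K := hK1.trans hKK1
  refine ⟨K, hK, fun θ T hT => ?_⟩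
  have hT1 : (1 : ℝ) ≤ (T : ℝ) := by exact_mod_cast hT
  have hT0 : (0 : ℝ) < (T : ℝ) := by linarith
  have hM0 : 0 ≤ (K2 : ℝ) * (T : ℝ) ^ ((r : ℝ) - 1 / (K2 : ℝ)) := by positivity
  refine (count_le n q r k D K hK θ T hT _ hM0 (fun θ' => ?_)).trans ?_
  · refine le_trans ?_ (h2 θ' T hT)
    exact_mod_cast Set.ncard_le_ncard (En_mono θ' hKK3) (En_finite θ')
  have ha : ((E1 n q D K T θ).ncard : ℝ) ≤ K1 * (T : ℝ) ^ (1 - 1 / (K1 : ℝ)) := by
    refine le_trans ?_ (h1 θ T hT)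
    exact_mod_cast Set.ncard_le_ncard (E1_mono θ hKK1) (E1_finite θ)
  have hK0 : (0 : ℝ) < (K : ℝ) := by exact_mod_cast hK
  have hK20 : (0 : ℝ) < (K2 : ℝ) := by exact_mod_cast hK2
  have i1 : 1 / (K : ℝ) ≤ 1 / (K1 : ℝ) := inv_le hK1 hKK1
  have i2 : (q : ℝ) / K + 1 / (K : ℝ) ≤ 1 / (K2 : ℝ) := by
    rw [← add_div, div_le_div_iff₀ hK0 hK20, one_mul]
    exact_mod_cast hKK2
  have p1 : (T : ℝ) ^ (1 - 1 / (K1 : ℝ)) * (T : ℝ) ^ r ≤
      (T : ℝ) ^ (((r + 1 : ℕ) : ℝ) - 1 / (K : ℝ)) := by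
    rw [← Real.rpow_natCast, ← Real.rpow_add hT0]
    apply Real.rpow_le_rpow_of_exponent_le hT1
    push_cast
    linarith
  have p2 : (T : ℝ) * ((T : ℝ) ^ ((q : ℝ) / K) * (T : ℝ) ^ ((r : ℝ) - 1 / (K2 : ℝ))) ≤
      (T : ℝ) ^ (((r + 1 : ℕ) : ℝ) - 1 / (K : ℝ)) := by
    nth_rewrite 1 [← Real.rpow_one (T : ℝ)]
    rw [← Real.rpow_add hT0, ← Real.rpow_add hT0]
    apply Real.rpow_le_rpow_of_exponent_le hT1
    push_cast
    linarith
  have q1 : ((E1 n q D K T θ).ncard : ℝ) * (T : ℝ) ^ r ≤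
      K1 * (T : ℝ) ^ (((r + 1 : ℕ) : ℝ) - 1 / (K : ℝ)) := by
    calc ((E1 n q D K T θ).ncard : ℝ) * (T : ℝ) ^ r
        ≤ (K1 * (T : ℝ) ^ (1 - 1 / (K1 : ℝ))) * (T : ℝ) ^ r := by gcongr
      _ = K1 * ((T : ℝ) ^ (1 - 1 / (K1 : ℝ)) * (T : ℝ) ^ r) := by ring
      _ ≤ K1 * (T : ℝ) ^ (((r + 1 : ℕ) : ℝ) - 1 / (K : ℝ)) := by gcongr
  have q2 : (T : ℝ) * (3 ^ q * (T : ℝ) ^ ((q : ℝ) / K) *
      (K2 * (T : ℝ) ^ ((r : ℝ) - 1 / (K2 : ℝ)))) ≤
      (3 ^ q * K2) * (T : ℝ) ^ (((r + 1 : ℕ) : ℝ) - 1 / (K : ℝ)) := by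
    calc _ = (3 ^ q * K2) * ((T : ℝ) * ((T : ℝ) ^ ((q : ℝ) / K) *
          (T : ℝ) ^ ((r : ℝ) - 1 / (K2 : ℝ)))) := by ring
      _ ≤ _ := by gcongr
  have hfin : ((K1 : ℝ) + 3 ^ q * K2) ≤ K := by exact_mod_cast hKK4
  calc _ ≤ K1 * (T : ℝ) ^ (((r + 1 : ℕ) : ℝ) - 1 / (K : ℝ)) +
        (3 ^ q * K2) * (T : ℝ) ^ (((r + 1 : ℕ) : ℝ) - 1 / (K : ℝ)) := add_le_add q1 q2
    _ = (K1 + 3 ^ q * K2) * (T : ℝ) ^ (((r + 1 : ℕ) : ℝ) - 1 / (K : ℝ)) := by ring
    _ ≤ K * (T : ℝ) ^ (((r + 1 : ℕ) : ℝ) - 1 / (K : ℝ)) := by gcongr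

end MULTI_

theorem p_MULTI (h : T_MAIN) : T_MULTI := by
  intro n q D r k
  have key : ∀ r : ℕ, MULTI_.Mu n q r := by
    intro r
    induction r with
    | zero => exact MULTI_.mu_zero n q
    | succ r ih => exact MULTI_.mu_succ h n q r ih
  exact key r D k

end Pool.Agent.HYP
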