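import Pool.Agent.HYP.Targets

set_option autoImplicit false

/-!
# HYP-PFU: the products form a graded system
-/

open Finset
open scoped BigOperators

namespace Pool.Agent.HYP

namespace PFU_

variable {q n s : ℕ}

/-- membership in the index set of a block -/
def Mem (n : ℕ) (p : Wd q × ℕ) : Prop := p.1.length + p.2 ≤ n ∧ p.1.getLast? ≠ some none

theorem sum_one (g : Wd q × ℕ → PowerSeries ℚ) (a : I0 q n → PowerSeries ℚ) (v0 : Wd q × ℕ)
    (hv0 : Mem n v0) (b : PowerSeries ℚ) (hb : ∀ v : I0 q n, v.1 = v0 → a v = b)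
    (hP : ∀ v : I0 q n, v.1 ≠ v0 → a v = 0) :
    ∑ v : I0 q n, a v * g v.1 = b * g v0 := by
  rw [Finset.sum_eq_single (⟨v0, hv0⟩ : I0 q n)]
  · rw [hb ⟨v0, hv0⟩ rfl]
  · intro v _ hv
    rw [hP v (fun e => hv (Subtype.ext e)), zero_mul]
  · intro h
    exact absurd (Finset.mem_univ _) h

theorem sum_none (g : Wd q × ℕ → PowerSeries ℚ) (a : I0 q n → PowerSeries ℚ)
    (hP : ∀ v : I0 q n, a v = 0) :
    ∑ v : I0 q n, a v * g v.1 = 0 :=
  Finset.sum_eq_zero fun v _ => by rw [hP v, zero_mul]

theorem coeff_bw (c : Lt s q → ℕ) (i : Fin s) (w : Wd q) (hw : w ≠ []) :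
    PowerSeries.coeff 0 (bw c i w) = 0 := by
  rcases w with _ | ⟨x, w⟩
  · exact absurd rfl hw
  · cases x with
    | none => simp [bw, PLG.In]
    | some j => simp [bw, PLG.In]

theorem mem_tail {x : Option (Fin q)} {w : Wd q} {m : ℕ} (h : Mem n (x :: w, m)) :
    Mem n (w, m) ∧ (x = none → w ≠ []) := by
  obtain ⟨h1, h2⟩ := h
  simp only [List.length_cons] at h1
  refine ⟨⟨by simp only; omega, ?_⟩, ?_⟩
  · rcases w with _ | ⟨y, w⟩
    · simp
    · rw [List.getLast?_cons_cons] at h2
      exact h2
  · rintro rfl rfl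
    exact h2 rfl

/-- the derivative of one block, in closed form -/
theorem dphi (hIN : PLG.T_IN) (c : Lt s q → ℕ) (i : Fin s) (u : Wd q × ℕ) (hu : Mem n u) :
    (PLG.TT c : PowerSeries ℚ) * PowerSeries.derivative ℚ (phi c i u) =
      (match u.1 with
        | [] => 0
        | none :: w => ((PLG.Tx c none : PowerSeries ℚ) -
            (PLG.Tx c (some (i, none)) : PowerSeries ℚ)) * phi c i (w, u.2)
        | some j :: w => ((PLG.Tx c (some (i, none)) : PowerSeries ℚ) -
            (PLG.Tx c (some (i, some j)) : PowerSeries ℚ)) * phi c i (w, u.2)) -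
      (u.2 : PowerSeries ℚ) * (PLG.Tx c (some (i, none)) : PowerSeries ℚ) *
        phi c i (u.1, u.2 - 1) := by
  obtain ⟨w, m⟩ := u
  have hlam : (PLG.TT c : PowerSeries ℚ) * PowerSeries.derivative ℚ (lam c i) =
      -(PLG.Tx c (some (i, none)) : PowerSeries ℚ) := by
    unfold lam
    rw [map_neg, mul_neg, (hIN _ c (some (i, none)) 1 (by simp)).2, mul_one]
  have hpow : (PLG.TT c : PowerSeries ℚ) * PowerSeries.derivative ℚ (lam c i ^ m) =
      -((m : PowerSeries ℚ) * (PLG.Tx c (some (i, none)) : PowerSeries ℚ) * lam c i ^ (m - 1)) := by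
    rw [Derivation.leibniz_pow, nsmul_eq_mul, smul_eq_mul]
    linear_combination ((m : PowerSeries ℚ) * lam c i ^ (m - 1)) * hlam
  have hgen : ∀ D : PowerSeries ℚ, (PLG.TT c : PowerSeries ℚ) *
      PowerSeries.derivative ℚ (bw c i w) = D →
      (PLG.TT c : PowerSeries ℚ) * PowerSeries.derivative ℚ (phi c i (w, m)) =
        D * lam c i ^ m - (m : PowerSeries ℚ) * (PLG.Tx c (some (i, none)) : PowerSeries ℚ) *
          phi c i (w, m - 1) := by
    intro D hD
    unfold phi
    simp only
    rw [Derivation.leibniz, smul_eq_mul, smul_eq_mul]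
    linear_combination (bw c i w) * hpow + (lam c i ^ m) * hD
  rcases w with _ | ⟨x, w⟩
  · rw [hgen 0 (by simp [bw])]
    simp
  · obtain ⟨-, hne⟩ := mem_tail hu
    cases x with
    | none =>
      rw [hgen (((PLG.Tx c none : PowerSeries ℚ) -
            (PLG.Tx c (some (i, none)) : PowerSeries ℚ)) * bw c i w)]
      · simp only [phi]
        ring
      · simp only [bw]
        rw [map_sub, mul_sub, (hIN _ c none (bw c i w) (fun _ => coeff_bw c i w (hne rfl))).2,
          (hIN _ c (some (i, none)) (bw c i w) (by simp)).2]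
        ring
    | some j =>
      rw [hgen (((PLG.Tx c (some (i, none)) : PowerSeries ℚ) -
            (PLG.Tx c (some (i, some j)) : PowerSeries ℚ)) * bw c i w)]
      · simp only [phi]
        ring
      · simp only [bw]
        rw [map_sub, mul_sub, (hIN _ c (some (i, none)) (bw c i w) (by simp)).2,
          (hIN _ c (some (i, some j)) (bw c i w) (by simp)).2]
        ring

/-- the system of one block -/
theorem block (hIN : PLG.T_IN) (c : Lt s q → ℕ) (i : Fin s) (u : I0 q n) :
    (PLG.TT c : PowerSeries ℚ) * PowerSeries.derivative ℚ (phi c i u.1) =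
      (PLG.Tx c none : PowerSeries ℚ) *
        ∑ v : I0 q n, ((r0 u.1 v.1 : ℤ) : PowerSeries ℚ) * phi c i v.1 +
      ∑ o, (PLG.Tx c (some (i, o)) : PowerSeries ℚ) *
        ∑ v : I0 q n, ((r1 o u.1 v.1 : ℤ) : PowerSeries ℚ) * phi c i v.1 := by
  classical
  obtain ⟨⟨w, m⟩, hu⟩ := u
  have hu' : Mem n (w, m) := hu
  rw [dphi hIN c i (w, m) hu', Fintype.sum_option]
  simp only
  -- the third part of `r1 none`
  have hA : ∑ v : I0 q n, (((if m = v.1.2 + 1 ∧ w = v.1.1 then -(m : ℤ) else 0 : ℤ)) :
      PowerSeries ℚ) * phi c i v.1 = -((m : PowerSeries ℚ) * phi c i (w, m - 1)) := by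
    rcases Nat.eq_zero_or_pos m with h0 | h0
    · rw [h0]
      rw [sum_none]
      · simp
      · intro v
        rw [if_neg (by omega)]
        simp
    · rw [sum_one (phi c i) _ (w, m - 1) ⟨by have := hu'.1; simp only at this ⊢; omega, hu'.2⟩
        (-(m : PowerSeries ℚ))]
      · ring
      · intro v hv
        rw [if_pos]
        · simp
        · rw [hv]
          exact ⟨by simp only; omega, rfl⟩
      · intro v hv
        rw [if_neg]
        · simp
        · rintro ⟨h1, h2⟩
          exact hv (Prod.ext h2.symm (by simp only; omega))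
  have hsplit : ∑ v : I0 q n, ((r1 none (w, m) v.1 : ℤ) : PowerSeries ℚ) * phi c i v.1 =
      -∑ v : I0 q n, ((r0 (w, m) v.1 : ℤ) : PowerSeries ℚ) * phi c i v.1 +
      ∑ v : I0 q n, (((if m = v.1.2 ∧ ∃ j, w = some j :: v.1.1 then 1 else 0 : ℤ)) :
        PowerSeries ℚ) * phi c i v.1 - (m : PowerSeries ℚ) * phi c i (w, m - 1) := by
    have e : ∀ v : I0 q n, ((r1 none (w, m) v.1 : ℤ) : PowerSeries ℚ) * phi c i v.1 =
        -(((r0 (w, m) v.1 : ℤ) : PowerSeries ℚ) * phi c i v.1) +
        (((if m = v.1.2 ∧ ∃ j, w = some j :: v.1.1 then 1 else 0 : ℤ)) :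
          PowerSeries ℚ) * phi c i v.1 +
        (((if m = v.1.2 + 1 ∧ w = v.1.1 then -(m : ℤ) else 0 : ℤ)) :
          PowerSeries ℚ) * phi c i v.1 := by
      intro v
      have e1 : r1 none (w, m) v.1 = -(r0 (w, m) v.1) +
          (if m = v.1.2 ∧ ∃ j, w = some j :: v.1.1 then 1 else 0) +
          (if m = v.1.2 + 1 ∧ w = v.1.1 then -(m : ℤ) else 0) := by
        simp only [r1, r0]
        split_ifs <;> rfl
      rw [e1]
      push_cast
      ring
    rw [Finset.sum_congr rfl fun v _ => e v, Finset.sum_add_distrib, Finset.sum_add_distrib, hA,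
      Finset.sum_neg_distrib]
    ring
  rw [hsplit]
  rcases w with _ | ⟨x, w⟩
  · -- the empty word
    have z0 : ∑ v : I0 q n, ((r0 ([], m) v.1 : ℤ) : PowerSeries ℚ) * phi c i v.1 = 0 :=
      sum_none _ _ fun v => by
        have : r0 (([], m) : Wd q × ℕ) v.1 = 0 := by simp [r0]
        rw [this]; simp
    have z1 : ∑ v : I0 q n, (((if m = v.1.2 ∧ ∃ j, ([] : Wd q) = some j :: v.1.1 then 1 else 0
        : ℤ)) : PowerSeries ℚ) * phi c i v.1 = 0 :=
      sum_none _ _ fun v => by simp
    have z2 : ∀ j : Fin q, ∑ v : I0 q n, ((r1 (some j) ([], m) v.1 : ℤ) : PowerSeries ℚ) *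
        phi c i v.1 = 0 := fun j => sum_none _ _ fun v => by
        have : r1 (some j) (([], m) : Wd q × ℕ) v.1 = 0 := by simp [r1]
        rw [this]; simp
    rw [z0, z1]
    simp only [z2]
    simp
    ring
  · obtain ⟨hm, hne⟩ := mem_tail hu'
    cases x with
    | none =>
      have z0 : ∑ v : I0 q n, ((r0 (none :: w, m) v.1 : ℤ) : PowerSeries ℚ) * phi c i v.1 =
          1 * phi c i (w, m) := by
        refine sum_one _ _ (w, m) hm 1 (fun v hv => ?_) (fun v hv => ?_)
        · rw [hv]; simp [r0]
        · have : r0 ((none :: w, m) : Wd q × ℕ) v.1 = 0 := by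
            simp only [r0]
            rw [if_neg]
            rintro ⟨h1, h2⟩
            exact hv (Prod.ext (List.cons.inj h2).2.symm h1.symm)
          rw [this]; simp
      have z1 : ∑ v : I0 q n, (((if m = v.1.2 ∧ ∃ j, (none :: w : Wd q) = some j :: v.1.1 then 1
          else 0 : ℤ)) : PowerSeries ℚ) * phi c i v.1 = 0 :=
        sum_none _ _ fun v => by simp
      have z2 : ∀ j : Fin q, ∑ v : I0 q n, ((r1 (some j) (none :: w, m) v.1 : ℤ) :
          PowerSeries ℚ) * phi c i v.1 = 0 := fun j => sum_none _ _ fun v => by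
          have : r1 (some j) ((none :: w, m) : Wd q × ℕ) v.1 = 0 := by simp [r1]
          rw [this]; simp
      rw [z0, z1]
      simp only [z2]
      simp
      ring
    | some j =>
      have z0 : ∑ v : I0 q n, ((r0 (some j :: w, m) v.1 : ℤ) : PowerSeries ℚ) * phi c i v.1 = 0 :=
        sum_none _ _ fun v => by
          have : r0 ((some j :: w, m) : Wd q × ℕ) v.1 = 0 := by simp [r0]
          rw [this]; simp
      have z1 : ∑ v : I0 q n, (((if m = v.1.2 ∧ ∃ j', (some j :: w : Wd q) = some j' :: v.1.1
          then 1 else 0 : ℤ)) : PowerSeries ℚ) * phi c i v.1 = 1 * phi c i (w, m) := by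
        refine sum_one _ _ (w, m) hm 1 (fun v hv => ?_) (fun v hv => ?_)
        · rw [hv]; simp
        · rw [if_neg]
          · simp
          · rintro ⟨h1, j', h2⟩
            exact hv (Prod.ext (List.cons.inj h2).2.symm h1.symm)
      have z2 : ∀ j' : Fin q, ∑ v : I0 q n, ((r1 (some j') (some j :: w, m) v.1 : ℤ) :
          PowerSeries ℚ) * phi c i v.1 = if j' = j then -phi c i (w, m) else 0 := by
        intro j'
        by_cases hj : j' = j
        · subst hj
          rw [if_pos rfl]
          rw [sum_one (phi c i) _ (w, m) hm (-1)]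
          · ring
          · intro v hv
            rw [hv]; simp [r1]
          · intro v hv
            have : r1 (some j') ((some j' :: w, m) : Wd q × ℕ) v.1 = 0 := by
              simp only [r1]
              rw [if_neg]
              rintro ⟨h1, h2⟩
              exact hv (Prod.ext (List.cons.inj h2).2.symm h1.symm)
            rw [this]; simp
        · rw [if_neg hj]
          refine sum_none _ _ fun v => ?_
          have : r1 (some j') ((some j :: w, m) : Wd q × ℕ) v.1 = 0 := by
            simp only [r1]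
            rw [if_neg]
            rintro ⟨h1, h2⟩
            exact hj (Option.some.inj (List.cons.inj h2).1).symm
          rw [this]; simp
      rw [z0, z1]
      simp only [z2, mul_ite, mul_zero]
      rw [Finset.sum_ite_eq']
      simp
      ring

/-- derivative of a finite product -/
theorem deriv_prod {ι : Type} [DecidableEq ι] (S : Finset ι) (g : ι → PowerSeries ℚ) :
    PowerSeries.derivative ℚ (∏ i ∈ S, g i) =
      ∑ i ∈ S, PowerSeries.derivative ℚ (g i) * ∏ l ∈ S.erase i, g l := by
  induction S using Finset.induction_on with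
  | empty => simp
  | insert a S ha ih =>
    rw [Finset.prod_insert ha, Derivation.leibniz, smul_eq_mul, smul_eq_mul, ih,
      Finset.sum_insert ha, Finset.erase_insert ha, Finset.mul_sum, add_comm]
    congr 1
    · ring
    · refine Finset.sum_congr rfl fun i hi => ?_
      have hia : i ≠ a := fun h => ha (h ▸ hi)
      rw [Finset.erase_insert_of_ne hia.symm, Finset.prod_insert]
      · ring
      · intro h
        exact ha (Finset.mem_of_mem_erase h)

/-- sums over the indices that agree with `J` off `i` -/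
theorem sum_update (c : Lt s q → ℕ) (J : Fin s → I0 q n) (i : Fin s)
    (g : (Fin s → I0 q n) → PowerSeries ℚ) (g' : I0 q n → PowerSeries ℚ)
    (h0 : ∀ K, (¬ ∀ l, l ≠ i → J l = K l) → g K = 0)
    (h1 : ∀ v, g (Function.update J i v) = g' v) :
    ∑ K : Fin s → I0 q n, g K * pf c K =
      (∑ v : I0 q n, g' v * phi c i v.1) * ∏ l ∈ Finset.univ.erase i, phi c l (J l).1 := by
  classical
  have hinj : Function.Injective (fun v : I0 q n => Function.update J i v) :=
    Function.update_injective J i
  have e1 : ∑ K : Fin s → I0 q n, g K * pf c K =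
      ∑ K ∈ Finset.univ.image (fun v : I0 q n => Function.update J i v), g K * pf c K := by
    symm
    refine Finset.sum_subset (Finset.subset_univ _) fun K _ hK => ?_
    rw [h0 K, zero_mul]
    intro hh
    apply hK
    rw [Finset.mem_image]
    refine ⟨K i, Finset.mem_univ _, ?_⟩
    funext l
    by_cases hl : l = i
    · subst hl; simp
    · rw [Function.update_of_ne hl]; exact hh l hl
  rw [e1, Finset.sum_image (fun _ _ _ _ h => hinj h), Finset.sum_mul]
  refine Finset.sum_congr rfl fun v _ => ?_
  rw [h1 v]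
  unfold pf
  rw [← Finset.mul_prod_erase _ _ (Finset.mem_univ i), Function.update_self, mul_assoc]
  congr 2
  refine Finset.prod_congr rfl fun l hl => ?_
  rw [Function.update_of_ne (Finset.ne_of_mem_erase hl)]

theorem r0_wt (u v : Wd q × ℕ) (h : r0 u v ≠ 0) :
    u.1.length + u.2 = v.1.length + v.2 + 1 := by
  unfold r0 at h
  split_ifs at h with h1
  · rw [h1.2, List.length_cons, h1.1]
    omega
  · exact absurd rfl h

theorem r1_wt (o : Option (Fin q)) (u v : Wd q × ℕ) (h : r1 o u v ≠ 0) :
    u.1.length + u.2 = v.1.length + v.2 + 1 := by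
  cases o with
  | none =>
    by_cases h1 : u.2 = v.2 ∧ u.1 = none :: v.1
    · rw [h1.2, List.length_cons, h1.1]
      omega
    · by_cases h2 : u.2 = v.2 ∧ ∃ j, u.1 = some j :: v.1
      · obtain ⟨h3, j, h4⟩ := h2
        rw [h4, List.length_cons, h3]
        omega
      · by_cases h3 : u.2 = v.2 + 1 ∧ u.1 = v.1
        · rw [h3.2, h3.1]
          omega
        · exfalso
          apply h
          simp only [r1]
          rw [if_neg h1, if_neg h2, if_neg h3]
          rfl
  | some j =>
    simp only [r1] at h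
    split_ifs at h with h1
    · rw [h1.2, List.length_cons, h1.1]
      omega
    · exact absurd rfl h

theorem wtt_step (J K : Fin s → I0 q n) (i : Fin s) (h : ∀ l, l ≠ i → J l = K l)
    (h1 : (J i).1.1.length + (J i).1.2 = (K i).1.1.length + (K i).1.2 + 1) :
    wtt J = wtt K + 1 := by
  unfold wtt
  rw [← Finset.add_sum_erase _ _ (Finset.mem_univ i),
    ← Finset.add_sum_erase (a := i) (f := fun l => (K l).1.1.length + (K l).1.2) _
      (Finset.mem_univ i), h1]
  have : ∑ x ∈ Finset.univ.erase i, ((J x).1.1.length + (J x).1.2) =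
      ∑ x ∈ Finset.univ.erase i, ((K x).1.1.length + (K x).1.2) :=
    Finset.sum_congr rfl fun l hl => by rw [h l (Finset.ne_of_mem_erase hl)]
  rw [this]
  omega

end PFU_

open PFU_ in
theorem p_PFU (h : PLG.T_IN) : T_PFU := by
  classical
  intro q n s c hc hc1
  refine ⟨?_, ?_, ?_, ?_⟩
  · intro x J K hx
    cases x with
    | none =>
      simp only [RR] at hx
      obtain ⟨i, -, hi⟩ := Finset.exists_ne_zero_of_sum_ne_zero hx
      split_ifs at hi with h1
      · exact wtt_step J K i h1 (r0_wt _ _ hi)
      · exact absurd rfl hi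
    | some y =>
      simp only [RR] at hx
      split_ifs at hx with h1
      · exact wtt_step J K y.1 h1 (r1_wt _ _ _ hx)
      · exact absurd rfl hx
  · intro J hJ
    funext i
    have h1 := (Finset.sum_eq_zero_iff.1 hJ) i (Finset.mem_univ i)
    simp only [Nat.add_eq_zero_iff] at h1
    apply Subtype.ext
    exact Prod.ext (List.length_eq_zero_iff.1 h1.1) h1.2
  · unfold pf j0 phi
    simp [bw]
  · intro J
    have hL : (PLG.TT c : PowerSeries ℚ) * PowerSeries.derivative ℚ (pf c J) =
        ∑ i, ((PLG.TT c : PowerSeries ℚ) * PowerSeries.derivative ℚ (phi c i (J i).1)) *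
          ∏ l ∈ Finset.univ.erase i, phi c l (J l).1 := by
      unfold pf
      rw [deriv_prod, Finset.mul_sum]
      refine Finset.sum_congr rfl fun i _ => ?_
      ring
    rw [hL, Fintype.sum_option, Fintype.sum_prod_type]
    have h0 : ∑ K, ((RR none J K : ℤ) : PowerSeries ℚ) * pf c K =
        ∑ i, (∑ v : I0 q n, ((r0 (J i).1 v.1 : ℤ) : PowerSeries ℚ) * phi c i v.1) *
          ∏ l ∈ Finset.univ.erase i, phi c l (J l).1 := by
      simp only [RR, Int.cast_sum, Finset.sum_mul]
      rw [Finset.sum_comm]
      refine Finset.sum_congr rfl fun i _ => ?_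
      rw [sum_update c J i _ (fun v => ((r0 (J i).1 v.1 : ℤ) : PowerSeries ℚ)), Finset.sum_mul]
      · intro K hK
        rw [if_neg hK]
        simp
      · intro v
        rw [if_pos]
        · simp
        · intro l hl
          rw [Function.update_of_ne hl]
    have h1 : ∀ i o, ∑ K, ((RR (some (i, o)) J K : ℤ) : PowerSeries ℚ) * pf c K =
        (∑ v : I0 q n, ((r1 o (J i).1 v.1 : ℤ) : PowerSeries ℚ) * phi c i v.1) *
          ∏ l ∈ Finset.univ.erase i, phi c l (J l).1 := by
      intro i o
      refine sum_update c J i _ (fun v => ((r1 o (J i).1 v.1 : ℤ) : PowerSeries ℚ)) ?_ ?_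
      · intro K hK
        simp only [RR]
        rw [if_neg hK]
        simp
      · intro v
        simp only [RR]
        rw [if_pos]
        · simp
        · intro l hl
          rw [Function.update_of_ne hl]
    rw [h0, Finset.mul_sum, ← Finset.sum_add_distrib]
    refine Finset.sum_congr rfl fun i _ => ?_
    rw [block h c i (J i), add_mul, Finset.sum_mul]
    congr 1
    · ring
    · refine Finset.sum_congr rfl fun o _ => ?_
      rw [h1 i o]
      ring

end Pool.Agent.HYP
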