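import Pool.Agent.HYP.Targets

set_option autoImplicit false

/-!
# The values of the products are linearly independent
-/

namespace Pool.Agent.HYP

open Finset
open scoped BigOperators

namespace PROD_

/-- common denominators -/
theorem common_den {α : Type} [Fintype α] (f : α → ℚ) :
    ∃ d : ℕ, 0 < d ∧ ∀ a, ∃ z : ℤ, (d : ℚ) * f a = z := by
  classical
  refine ⟨∏ a, (f a).den, Finset.prod_pos fun a _ => (f a).den_pos, fun a => ?_⟩
  refine ⟨(∏ b ∈ univ.erase a, ((f b).den : ℤ)) * (f a).num, ?_⟩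
  have h1 : ((∏ b, (f b).den : ℕ) : ℚ) = ((f a).den : ℚ) * ∏ b ∈ univ.erase a, ((f b).den : ℚ) := by
    rw [Nat.cast_prod, ← Finset.mul_prod_erase univ _ (Finset.mem_univ a)]
  rw [h1]
  push_cast
  have h2 : ((f a).den : ℚ) * f a = (f a).num := by
    rw [mul_comm]; exact Rat.mul_den_eq_num (f a)
  calc ((f a).den : ℚ) * (∏ b ∈ univ.erase a, ((f b).den : ℚ)) * f a
      = (∏ b ∈ univ.erase a, ((f b).den : ℚ)) * (((f a).den : ℚ) * f a) := by ring
    _ = _ := by rw [h2]

/-- summability -/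
theorem summ {g : PowerSeries ℚ} {H : ℕ} (hg : ∀ s, |PowerSeries.coeff s g| ≤ (H : ℚ) ^ s)
    {x : ℝ} (hx : 0 ≤ x) (hHx : H * x < 1) :
    Summable fun m => ((PowerSeries.coeff m g : ℚ) : ℝ) * x ^ m := by
  apply Summable.of_norm
  refine Summable.of_nonneg_of_le (fun m => norm_nonneg _) (fun m => ?_)
    (summable_geometric_of_lt_one (mul_nonneg (Nat.cast_nonneg H) hx) hHx)
  rw [Real.norm_eq_abs, abs_mul, abs_of_nonneg (pow_nonneg hx m), mul_pow]
  apply mul_le_mul_of_nonneg_right _ (pow_nonneg hx m)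
  have := hg m
  exact_mod_cast this

/-- linearity of `val` -/
theorem val_sum {α : Type} (S : Finset α) (mu : α → ℚ) (g : α → PowerSeries ℚ) (x : ℝ)
    (hg : ∀ a ∈ S, Summable fun m => ((PowerSeries.coeff m (g a) : ℚ) : ℝ) * x ^ m) :
    PLG.val (∑ a ∈ S, mu a • g a) x = ∑ a ∈ S, (mu a : ℝ) * PLG.val (g a) x := by
  unfold PLG.val
  have h1 : ∀ m, ((PowerSeries.coeff m (∑ a ∈ S, mu a • g a) : ℚ) : ℝ) * x ^ m =
      ∑ a ∈ S, (mu a : ℝ) * (((PowerSeries.coeff m (g a) : ℚ) : ℝ) * x ^ m) := by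
    intro m
    rw [map_sum]
    simp only [PowerSeries.coeff_smul, smul_eq_mul, Rat.cast_sum, Rat.cast_mul]
    rw [Finset.sum_mul]
    exact Finset.sum_congr rfl fun a _ => by ring
  rw [tsum_congr h1, Summable.tsum_finsetSum fun a ha => (hg a ha).mul_left _]
  exact Finset.sum_congr rfl fun a _ => tsum_mul_left

theorem pl_le {q s : ℕ} {h H : ℕ} {a : Fin s → Fin q → ℤ} {b : Fin s → ℕ} (hs : Sep h a b)
    (hb : ∀ i, b i + h ≤ H) : ∀ x, pl a b x ≤ H := by
  rintro ⟨i, _ | j⟩
  · show b i ≤ H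
    have := hb i
    omega
  · show ((b i : ℤ) - a i j).toNat ≤ H
    have h1 := hb i
    have h2 := abs_le.1 (hs.le i j)
    omega

theorem pl_pos {q s : ℕ} {h : ℕ} {a : Fin s → Fin q → ℤ} {b : Fin s → ℕ} (hs : Sep h a b) :
    ∀ x, 1 ≤ pl a b x := by
  rintro ⟨i, _ | j⟩
  · show 1 ≤ b i
    have := hs.big i
    omega
  · show 1 ≤ ((b i : ℤ) - a i j).toNat
    have h1 := hs.big i
    have h2 := abs_le.1 (hs.le i j)
    omega

theorem pl_cast {q s : ℕ} {h : ℕ} {a : Fin s → Fin q → ℤ} {b : Fin s → ℕ} (hs : Sep h a b)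
    (i : Fin s) (j : Fin q) : (pl a b (i, some j) : ℤ) = (b i : ℤ) - a i j := by
  show ((((b i : ℤ) - a i j).toNat : ℕ) : ℤ) = _
  have h1 := hs.big i
  have h2 := abs_le.1 (hs.le i j)
  omega

theorem pl_inj {q s : ℕ} {h : ℕ} {a : Fin s → Fin q → ℤ} {b : Fin s → ℕ} (hs : Sep h a b) :
    Function.Injective (pl a b) := by
  have key : ∀ i l : Fin s, |(b i : ℤ) - b l| ≤ 2 * (h : ℤ) → i = l := by
    intro i l h1
    by_contra h2
    have := hs.far i l h2
    omega
  rintro ⟨i, _ | j⟩ ⟨l, _ | k⟩ hxy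
  · have h1 : b i = b l := hxy
    have : i = l := key i l (by rw [h1]; simp)
    rw [this]
  · exfalso
    have h1 : (b i : ℤ) = b l - a l k := by
      rw [← pl_cast hs l k]
      exact_mod_cast hxy
    have h2 := abs_le.1 (hs.le l k)
    have h3 : i = l := key i l (by rw [abs_le]; omega)
    subst h3
    exact hs.ne i k (by omega)
  · exfalso
    have h1 : (b l : ℤ) = b i - a i j := by
      rw [← pl_cast hs i j]
      exact_mod_cast hxy.symm
    have h2 := abs_le.1 (hs.le i j)
    have h3 : i = l := key i l (by rw [abs_le]; omega)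
    subst h3
    exact hs.ne i j (by omega)
  · have h1 : (b i : ℤ) - a i j = b l - a l k := by
      rw [← pl_cast hs l k, ← pl_cast hs i j]
      exact_mod_cast hxy
    have h2 := abs_le.1 (hs.le l k)
    have h2' := abs_le.1 (hs.le i j)
    have h3 : i = l := key i l (by rw [abs_le]; omega)
    subst h3
    have h4 : j = k := hs.inj i (by omega)
    rw [h4]

end PROD_

open PROD_ in
theorem p_PROD (hH : PLG.T_H) (hC : PLG.T_COEF) (hI : T_IND) (hP : T_PFU) (hS : T_SEPA)
    (hE : T_EXPA) (hV : T_VAL) : T_PROD := by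
  intro q n s
  obtain ⟨E0, hE0, hmain⟩ := hH (Lt s q) (s * n)
  refine ⟨880 * E0, by omega, fun N h H a b hs hbH hH1 hN c hc => ?_⟩
  have hEH : 880 * E0 * H ≤ N := by
    refine le_trans ?_ hN
    calc 880 * E0 * H = (880 * E0 * H) ^ 1 := (pow_one _).symm
      _ ≤ _ := Nat.pow_le_pow_right (by positivity) (by omega)
  have h880 : 880 * H ≤ N := by nlinarith
  have hNpos : 0 < N := by omega
  have hN8 : ∀ i, 8 * (b i + h) ≤ N := by
    intro i
    have := hbH i
    omega
  have hN' : (880 * H) ^ E0 ≤ N := by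
    refine le_trans ?_ hN
    calc (880 * H) ^ E0 ≤ (880 * E0 * H) ^ E0 := Nat.pow_le_pow_left (by nlinarith) _
      _ ≤ _ := Nat.pow_le_pow_right (by positivity) (by omega)
  set cc := pl a b with hcc
  set x : ℝ := 1 / (N : ℝ) with hx
  have hx0 : 0 ≤ x := by positivity
  have hNr : (0 : ℝ) < N := by exact_mod_cast hNpos
  have hHx : (H : ℝ) * x < 1 := by
    rw [hx, mul_one_div, div_lt_one hNr]
    exact_mod_cast (by omega : H < N)
  have hsum : ∀ w : PLG.Wd (Lt s q) (s * n), Summable fun m =>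
      ((PowerSeries.coeff m (PLG.L cc w.1) : ℚ) : ℝ) * x ^ m := by
    intro w
    exact summ (hC (Lt s q) cc H hH1 (pl_le hs hbH) w.1).1 hx0 hHx
  -- the expansions in words
  have hexp := fun J => hE q n s cc J
  choose mu hmu using hexp
  have hval : ∀ J, ∏ i, (hv (wd (a i) (J i).1.1) (N + b i) *
      (Real.log N - Real.log ((N + b i : ℕ) : ℝ)) ^ (J i).1.2) =
      ∑ w, (mu J w : ℝ) * PLG.val (PLG.L cc w.1) x := by
    intro J
    rw [← hV q n s N h a b J (fun i j => hs.ne i j) (fun i j => hs.le i j) hs.big hN8, ← hcc,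
      hmu J, val_sum _ _ _ _ fun w _ => hsum w]
  obtain ⟨d, hd, hdz⟩ := common_den
    (fun p : (Fin s → I0 q n) × PLG.Wd (Lt s q) (s * n) => mu p.1 p.2)
  choose z hz using hdz
  have hd0 : (d : ℚ) ≠ 0 := by exact_mod_cast hd.ne'
  have hdr : (d : ℝ) ≠ 0 := by exact_mod_cast hd.ne'
  have hlam := hmain H N cc hH1 (pl_inj hs) (fun y => ⟨pl_pos hs y, pl_le hs hbH y⟩) hN'
    (fun w => ∑ J, c J * z (J, w)) (by
      have h1 : ∀ w, ((∑ J, c J * z (J, w) : ℤ) : ℝ) = d * ∑ J, (c J : ℝ) * (mu J w : ℝ) := by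
        intro w
        push_cast
        rw [Finset.mul_sum]
        refine Finset.sum_congr rfl fun J _ => ?_
        have h2 : ((z (J, w) : ℤ) : ℝ) = d * (mu J w : ℝ) := by
          have := hz (J, w)
          exact_mod_cast this.symm
        rw [h2]
        ring
      calc ∑ w, ((∑ J, c J * z (J, w) : ℤ) : ℝ) * PLG.val (PLG.L cc w.1) x
          = ∑ w, ∑ J, (d : ℝ) * ((c J : ℝ) * ((mu J w : ℝ) * PLG.val (PLG.L cc w.1) x)) := by
            refine Finset.sum_congr rfl fun w _ => ?_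
            rw [h1 w, Finset.mul_sum, Finset.sum_mul]
            exact Finset.sum_congr rfl fun J _ => by ring
        _ = (d : ℝ) * ∑ J, (c J : ℝ) * ∑ w, (mu J w : ℝ) * PLG.val (PLG.L cc w.1) x := by
            rw [Finset.sum_comm, Finset.mul_sum]
            refine Finset.sum_congr rfl fun J _ => ?_
            rw [Finset.mul_sum, Finset.mul_sum]
        _ = 0 := by
            rw [← mul_zero (d : ℝ), ← hc]
            congr 1
            exact Finset.sum_congr rfl fun J _ => by rw [hval J])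
  -- the formal relation
  have hrel : ∑ J, (c J : ℚ) • pf cc J = 0 := by
    have h1 : (d : ℚ) • ∑ J, (c J : ℚ) • pf cc J = 0 := by
      calc (d : ℚ) • ∑ J, (c J : ℚ) • pf cc J
          = ∑ J, ∑ w, ((d : ℚ) * ((c J : ℚ) * mu J w)) • PLG.L cc w.1 := by
            rw [Finset.smul_sum]
            refine Finset.sum_congr rfl fun J _ => ?_
            rw [hmu J, Finset.smul_sum, Finset.smul_sum]
            exact Finset.sum_congr rfl fun w _ => by rw [smul_smul, smul_smul]; ring_nf
        _ = ∑ w, ((∑ J, c J * z (J, w) : ℤ) : ℚ) • PLG.L cc w.1 := by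
            rw [Finset.sum_comm]
            refine Finset.sum_congr rfl fun w _ => ?_
            rw [← Finset.sum_smul]
            congr 1
            push_cast
            refine Finset.sum_congr rfl fun J _ => ?_
            rw [← hz (J, w)]
            ring
        _ = 0 := by
            refine Finset.sum_eq_zero fun w _ => ?_
            have h2 : (∑ J, c J * z (J, w) : ℤ) = 0 := congrFun hlam w
            rw [h2, Int.cast_zero, zero_smul]
    exact (smul_eq_zero.1 h1).resolve_left hd0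
  have hfin := hI (Fin s → I0 q n) (Lt s q) cc RR wtt (j0 q n s) (pf (n := n) cc)
    (hP q n s cc (pl_inj hs) (pl_pos hs)) (pl_inj hs) (pl_pos hs)
    (fun l R hl h1 h2 => hS q n s l R hl h1 h2)
    (fun J => Polynomial.C (c J : ℚ)) (by
      rw [← hrel]
      refine Finset.sum_congr rfl fun J _ => ?_
      rw [Polynomial.coe_C, PowerSeries.smul_eq_C_mul])
  funext J
  have h1 := congrFun hfin J
  simp only [Pi.zero_apply, Polynomial.C_eq_zero] at h1
  exact_mod_cast h1

end Pool.Agent.HYP
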