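import Pool.Agent.HYP.Targets

set_option autoImplicit false

/-! # HYP: the residues separate -/

namespace Pool.Agent.HYP

open Finset
open scoped BigOperators

namespace SEPA_

variable {q n s : ℕ}

theorem last_tail {α : Type} {a : α} {w : List α} {b : α} (h : (a :: w).getLast? ≠ some b) :
    w.getLast? ≠ some b := by
  cases w with
  | nil => simp
  | cons c t => simpa using h

theorem ext_upd {J J' : Fin s → I0 q n} {i : Fin s} (h : ∀ l, l ≠ i → J' l = J l)
    (hi : (J' i).1 = (J i).1) : J' = J := by
  funext l
  by_cases hl : l = i
  · rw [hl]
    exact Subtype.ext hi
  · exact h l hl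

theorem some_case (R : (Fin s → I0 q n) → ℚ)
    (hR : ∀ x K, ∑ J, R J * (RR x J K : ℚ) = 0) (i : Fin s) (j : Fin q) (w : Wd q) (m : ℕ)
    (J : Fin s → I0 q n) (hJ : (J i).1 = (some j :: w, m)) : R J = 0 := by
  have hp := (J i).2
  rw [hJ] at hp
  have hv : (w, m).1.length + (w, m).2 ≤ n ∧ (w, m).1.getLast? ≠ some none := by
    refine ⟨?_, last_tail hp.2⟩
    have := hp.1
    simp only [List.length_cons] at this
    simp only
    omega
  set K : Fin s → I0 q n := Function.update J i ⟨(w, m), hv⟩ with hK
  have hKi : (K i).1 = (w, m) := by rw [hK, Function.update_self]
  have hKl : ∀ l, l ≠ i → K l = J l := fun l hl => by rw [hK, Function.update_of_ne hl]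
  have h := hR (some (i, some j)) K
  rw [Finset.sum_eq_single J] at h
  · have h1 : RR (some (i, some j)) J K = -1 := by
      unfold RR
      simp only
      rw [if_pos (fun l hl => (hKl l hl).symm), hJ, hKi]
      unfold r1
      simp
    rw [h1] at h
    push_cast at h
    linarith
  · intro J' _ hne
    have h1 : RR (some (i, some j)) J' K = 0 := by
      unfold RR
      simp only
      split_ifs with hc
      · unfold r1
        simp only
        rw [if_neg]
        rintro ⟨h2, h3⟩
        apply hne
        apply ext_upd (i := i) (fun l hl => (hc l hl).trans (hKl l hl))
        rw [hJ]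
        rw [hKi] at h2 h3
        exact Prod.ext h3 h2
      · rfl
    rw [h1]
    simp
  · intro h1
    exact absurd (Finset.mem_univ J) h1

theorem gen (R : (Fin s → I0 q n) → ℚ)
    (hR : ∀ x K, ∑ J, R J * (RR x J K : ℚ) = 0) (i : Fin s) (w : Wd q) :
    ∀ (m : ℕ) (J : Fin s → I0 q n), (J i).1 = (w, m) → (w ≠ [] ∨ m ≠ 0) → R J = 0 := by
  induction w with
  | nil =>
    intro m J hJ hm
    obtain ⟨m, rfl⟩ : ∃ k, m = k + 1 := by
      rcases hm with h | h
      · exact absurd rfl h
      · exact Nat.exists_eq_succ_of_ne_zero h
    have hp := (J i).2
    rw [hJ] at hp
    have hv : (([] : Wd q), m).1.length + (([] : Wd q), m).2 ≤ n ∧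
        (([] : Wd q), m).1.getLast? ≠ some none := by
      refine ⟨?_, hp.2⟩
      have := hp.1
      simp only [List.length_nil] at this ⊢
      omega
    set K : Fin s → I0 q n := Function.update J i ⟨([], m), hv⟩ with hK
    have hKi : (K i).1 = ([], m) := by rw [hK, Function.update_self]
    have hKl : ∀ l, l ≠ i → K l = J l := fun l hl => by rw [hK, Function.update_of_ne hl]
    have h := hR (some (i, none)) K
    rw [Finset.sum_eq_single J] at h
    · have h1 : RR (some (i, none)) J K = -((m : ℤ) + 1) := by
        unfold RR
        simp only
        rw [if_pos (fun l hl => (hKl l hl).symm), hJ, hKi]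
        unfold r1
        simp
      rw [h1] at h
      push_cast at h
      have h2 : (m : ℚ) + 1 ≠ 0 := by positivity
      have h3 : R J * ((m : ℚ) + 1) = 0 := by linarith
      exact (mul_eq_zero.mp h3).resolve_right h2
    · intro J' _ hne
      by_cases hc : ∀ l, l ≠ i → J' l = K l
      · by_cases hs : ∃ j, (J' i).1.1 = some j :: []
        · obtain ⟨j, hj⟩ := hs
          rw [some_case R hR i j [] (J' i).1.2 J' (Prod.ext hj rfl), zero_mul]
        · have h1 : RR (some (i, none)) J' K = 0 := by
            unfold RR
            simp only
            rw [if_pos hc, hKi]
            unfold r1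
            simp only
            rw [if_neg, if_neg, if_neg]
            · simp
            · rintro ⟨h2, h3⟩
              apply hne
              apply ext_upd (i := i) (fun l hl => (hc l hl).trans (hKl l hl))
              rw [hJ]
              exact Prod.ext h3 h2
            · rintro ⟨_, h3⟩
              exact hs h3
            · rintro ⟨_, h3⟩
              have := (J' i).2.2
              rw [h3] at this
              exact this rfl
          rw [h1]
          simp
      · have h1 : RR (some (i, none)) J' K = 0 := by
          unfold RR
          simp only
          rw [if_neg hc]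
        rw [h1]
        simp
    · intro h1
      exact absurd (Finset.mem_univ J) h1
  | cons o w ih =>
    intro m J hJ _
    cases o with
    | some j => exact some_case R hR i j w m J hJ
    | none =>
      have hp := (J i).2
      rw [hJ] at hp
      have hw : w ≠ [] := by
        rintro rfl
        exact hp.2 rfl
      have hv : (w, m).1.length + (w, m).2 ≤ n ∧ (w, m).1.getLast? ≠ some none := by
        refine ⟨?_, last_tail hp.2⟩
        have := hp.1
        simp only [List.length_cons] at this
        simp only
        omega
      set K : Fin s → I0 q n := Function.update J i ⟨(w, m), hv⟩ with hK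
      have hKi : (K i).1 = (w, m) := by rw [hK, Function.update_self]
      have hKl : ∀ l, l ≠ i → K l = J l := fun l hl => by rw [hK, Function.update_of_ne hl]
      have h := hR (some (i, none)) K
      rw [Finset.sum_eq_single J] at h
      · have h1 : RR (some (i, none)) J K = -1 := by
          unfold RR
          simp only
          rw [if_pos (fun l hl => (hKl l hl).symm), hJ, hKi]
          unfold r1
          simp
        rw [h1] at h
        push_cast at h
        linarith
      · intro J' _ hne
        by_cases hc : ∀ l, l ≠ i → J' l = K l
        · by_cases hs : ∃ j, (J' i).1.1 = some j :: w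
          · obtain ⟨j, hj⟩ := hs
            rw [some_case R hR i j w (J' i).1.2 J' (Prod.ext hj rfl), zero_mul]
          · by_cases ht : (J' i).1 = (w, m + 1)
            · rw [ih (m + 1) J' ht (Or.inl hw), zero_mul]
            · have h1 : RR (some (i, none)) J' K = 0 := by
                unfold RR
                simp only
                rw [if_pos hc, hKi]
                unfold r1
                simp only
                rw [if_neg, if_neg, if_neg]
                · simp
                · rintro ⟨h2, h3⟩
                  exact ht (Prod.ext h3 h2)
                · rintro ⟨_, h3⟩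
                  exact hs h3
                · rintro ⟨h2, h3⟩
                  apply hne
                  apply ext_upd (i := i) (fun l hl => (hc l hl).trans (hKl l hl))
                  rw [hJ]
                  exact Prod.ext h3 h2
              rw [h1]
              simp
        · have h1 : RR (some (i, none)) J' K = 0 := by
            unfold RR
            simp only
            rw [if_neg hc]
          rw [h1]
          simp
      · intro h1
        exact absurd (Finset.mem_univ J) h1

end SEPA_

theorem p_SEPA : T_SEPA := by
  intro q n s l R hl hwt hR
  funext J
  by_contra hJ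
  have h1 := hwt J hJ
  have h2 : ∃ i, ((J i).1.1 ≠ [] ∨ (J i).1.2 ≠ 0) := by
    by_contra hno
    push Not at hno
    have h3 : wtt J = 0 := by
      unfold wtt
      apply Finset.sum_eq_zero
      intro i _
      rw [(hno i).1, (hno i).2]
      rfl
    omega
  obtain ⟨i, hi⟩ := h2
  exact hJ (SEPA_.gen R hR i (J i).1.1 (J i).1.2 J rfl hi)

end Pool.Agent.HYP
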