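import Pool.Agent.PLG.Targets

set_option autoImplicit false

/-!
# Hyperlogarithms (multiple polylogarithms) at `1 / t` (MP_5d33ca_ag)

Definitions and exact targets. The complete proofs are in `Blueprint.lean.txt`.
-/

namespace Pool.Agent.HYP

open Finset
open scoped BigOperators

/-! ## Statement level definitions -/

/-- The power series of the hyperlogarithm `L_w`: `L_[] = 1`, `L_(0 w)' = L_w / z` and
`L_(a w)' = a L_w / (1 - a z)` for `a ≠ 0`, with constant term `0`. -/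
noncomputable def hl : List ℤ → PowerSeries ℚ
  | [] => 1
  | a :: w => PowerSeries.mk fun s =>
      (if a = 0 then PowerSeries.coeff s (hl w)
        else ∑ r ∈ range s, (a : ℚ) ^ (s - r) * PowerSeries.coeff r (hl w)) / s

/-- The value `L_w(1 / t)`. -/
noncomputable def hv (w : List ℤ) (t : ℕ) : ℝ :=
  ∑' s, ((PowerSeries.coeff s (hl w) : ℚ) : ℝ) * (1 / (t : ℝ)) ^ s

/-- The last letter of `w` is not `0`. -/
def Reg (w : List ℤ) : Prop := w.getLast? ≠ some 0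

/-- The pairs `(w, m)`, `w` a regular word in the letters `{0} ∪ A`, of weight `|w| + m ≤ n`. -/
def Ix (n : ℕ) (A : Finset ℤ) : Set (List ℤ × ℕ) :=
  {p | p.1.length + p.2 ≤ n ∧ (∀ x ∈ p.1, x = 0 ∨ x ∈ A) ∧ Reg p.1}

/-- There is a nontrivial linear relation between the numbers `(log t) ^ m * L_w(1 / t)`,
`(w, m) ∈ Ix n A`, with coefficients in `ℤ[θ]`, of degree at most `D` in `θ`. -/
def Bad {k : ℕ} (n D : ℕ) (θ : Fin k → ℂ) (A : Finset ℤ) (t : ℕ) : Prop :=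
  ∃ c : List ℤ × ℕ →₀ MvPolynomial (Fin k) ℤ,
    (∀ p ∈ c.support, p ∈ Ix n A ∧ (c p).totalDegree ≤ D) ∧
    (∃ p, MvPolynomial.aeval θ (c p) ≠ 0) ∧
    c.sum (fun p x => MvPolynomial.aeval θ x * (hv p.1 t : ℂ) * (Real.log t : ℂ) ^ p.2) = 0

/-- The same for `r` points `t l`, with letters `A l` for the point `t l`: relations between the
products over `l` of the numbers `(log (t l)) ^ m * L_w(1 / t l)`, `(w, m) ∈ Ix n (A l)`. -/
def BadM {k r : ℕ} (n D : ℕ) (θ : Fin k → ℂ) (A : Fin r → Finset ℤ) (t : Fin r → ℕ) : Prop :=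
  ∃ c : (Fin r → List ℤ × ℕ) →₀ MvPolynomial (Fin k) ℤ,
    (∀ p ∈ c.support, (∀ l, p l ∈ Ix n (A l)) ∧ (c p).totalDegree ≤ D) ∧
    (∃ p, MvPolynomial.aeval θ (c p) ≠ 0) ∧
    c.sum (fun p x => MvPolynomial.aeval θ x *
      ∏ l, ((hv (p l).1 (t l) : ℂ) * (Real.log (t l) : ℂ) ^ (p l).2)) = 0

/-- MAIN (from PROD, ELIM; helper8) -/
def T_MAIN : Prop := ∀ n q k D : ℕ, ∃ K : ℕ, 1 ≤ K ∧ ∀ (θ : Fin k → ℂ) (T : ℕ), 1 ≤ T →
  (({t : ℕ | (1 ≤ t ∧ t ≤ T) ∧ ∃ A : Finset ℤ, A.card ≤ q ∧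
    (∀ a ∈ A, a ≠ 0 ∧ |a| ^ K ≤ (T : ℤ)) ∧ Bad n D θ A t}).ncard : ℝ) ≤
    K * (T : ℝ) ^ (1 - 1 / (K : ℝ))

/-- MULTI (from MAIN): several points -/
def T_MULTI : Prop := ∀ n q D r k : ℕ, ∃ K : ℕ, 1 ≤ K ∧ ∀ (θ : Fin k → ℂ) (T : ℕ), 1 ≤ T →
  (({t : Fin r → ℕ | (∀ l, 1 ≤ t l ∧ t l ≤ T) ∧ ∃ A : Fin r → Finset ℤ,
    (∀ l, (A l).card ≤ q ∧ ∀ a ∈ A l, a ≠ 0 ∧ |a| ^ K ≤ (T : ℤ)) ∧ BadM n D θ A t}).ncard : ℝ) ≤
    K * (T : ℝ) ^ ((r : ℝ) - 1 / (K : ℝ))

/-! ## Graded systems -/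

/-- A graded system `T f' = (∑ x, T x * B x) f`, `T x / T` the form of the letter `x` (see
`PLG.TT`, `PLG.Tx`), with a power series solution `f`. -/
structure Fu {ι κ : Type} [Fintype ι] [Fintype κ] [DecidableEq κ] (c : κ → ℕ)
    (B : Option κ → ι → ι → ℤ) (wt : ι → ℕ) (J0 : ι) (f : ι → PowerSeries ℚ) : Prop where
  low : ∀ x i j, B x i j ≠ 0 → wt i = wt j + 1
  wt0 : ∀ i, wt i = 0 → i = J0
  f0 : f J0 = 1
  ode : ∀ i, (PLG.TT c : PowerSeries ℚ) * PowerSeries.derivative ℚ (f i) =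
    ∑ x, (PLG.Tx c x : PowerSeries ℚ) * ∑ j, ((B x i j : ℤ) : PowerSeries ℚ) * f j

/-- IND (from `PLG.T_RES`): independence of the solutions over `ℚ(z)`, if the residues separate
the homogeneous vectors of positive weight -/
def T_IND : Prop := ∀ (ι κ : Type) [Fintype ι] [DecidableEq ι] [Fintype κ] [DecidableEq κ]
  (c : κ → ℕ) (B : Option κ → ι → ι → ℤ) (wt : ι → ℕ) (J0 : ι) (f : ι → PowerSeries ℚ),
  Fu c B wt J0 f → Function.Injective c → (∀ x, 1 ≤ c x) →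
  (∀ (l : ℕ) (R : ι → ℚ), 1 ≤ l → (∀ i, R i ≠ 0 → wt i = l) →
    (∀ x j, ∑ i, R i * (B x i j : ℚ) = 0) → R = 0) →
  ∀ F : ι → Polynomial ℚ, ∑ i, (F i : PowerSeries ℚ) * f i = 0 → F = 0

/-! ## The system of the products -/

/-- words in the letters `none` (for `0`) and `some j` (for `a j`) -/
abbrev Wd (q : ℕ) : Type := List (Option (Fin q))

/-- the index set of one block -/
abbrev I0 (q n : ℕ) : Type :=
  {p : Wd q × ℕ // p.1.length + p.2 ≤ n ∧ p.1.getLast? ≠ some none}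

instance instFiniteI0 (q n : ℕ) : Finite (I0 q n) := by
  have h : Set.Finite {p : Wd q × ℕ | p.1.length + p.2 ≤ n ∧ p.1.getLast? ≠ some none} := by
    refine ((List.finite_length_le (Option (Fin q)) n).prod (Set.finite_Iic n)).subset ?_
    rintro ⟨w, m⟩ ⟨h1, _⟩
    simp only [Set.mem_prod, Set.mem_ofPred_eq, Set.mem_Iic] at h1 ⊢
    omega
  exact h.to_subtype

noncomputable instance instFintypeI0 (q n : ℕ) : Fintype (I0 q n) := Fintype.ofFinite _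

noncomputable instance instDecEqI0 (q n : ℕ) : DecidableEq (I0 q n) := Classical.decEq _

/-- the letters of the products: `(i, none)` for the pole of `dt_i`, `(i, some j)` -/
abbrev Lt (s q : ℕ) : Type := Fin s × Option (Fin q)

/-- the poles: `(i, none)` gives `b i`, `(i, some j)` gives `b i - a i j` -/
def pl {q s : ℕ} (a : Fin s → Fin q → ℤ) (b : Fin s → ℕ) : Lt s q → ℕ
  | (i, none) => b i
  | (i, some j) => ((b i : ℤ) - a i j).toNat

/-- the power series of `L_w(z / (1 + b i z))`, in terms of the letters `c = pl a b` -/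
noncomputable def bw {q s : ℕ} (c : Lt s q → ℕ) (i : Fin s) : Wd q → PowerSeries ℚ
  | [] => 1
  | none :: w => PLG.In c none (bw c i w) - PLG.In c (some (i, none)) (bw c i w)
  | some j :: w => PLG.In c (some (i, none)) (bw c i w) - PLG.In c (some (i, some j)) (bw c i w)

/-- the power series of `- log (1 + b i z)` -/
noncomputable def lam {q s : ℕ} (c : Lt s q → ℕ) (i : Fin s) : PowerSeries ℚ :=
  - PLG.In c (some (i, none)) 1

/-- the functions of one block -/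
noncomputable def phi {q s : ℕ} (c : Lt s q → ℕ) (i : Fin s) (u : Wd q × ℕ) : PowerSeries ℚ :=
  bw c i u.1 * lam c i ^ u.2

/-- the products -/
noncomputable def pf {q n s : ℕ} (c : Lt s q → ℕ) (J : Fin s → I0 q n) : PowerSeries ℚ :=
  ∏ i, phi c i (J i).1

open Classical in
/-- coefficient of the letter `none`, one block -/
noncomputable def r0 {q : ℕ} (u v : Wd q × ℕ) : ℤ :=
  if u.2 = v.2 ∧ u.1 = none :: v.1 then 1 else 0

open Classical in
/-- coefficients of the other letters, one block -/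
noncomputable def r1 {q : ℕ} (o : Option (Fin q)) (u v : Wd q × ℕ) : ℤ :=
  match o with
  | none => (if u.2 = v.2 ∧ u.1 = none :: v.1 then -1 else 0) +
      (if u.2 = v.2 ∧ ∃ j, u.1 = some j :: v.1 then 1 else 0) +
      (if u.2 = v.2 + 1 ∧ u.1 = v.1 then -(u.2 : ℤ) else 0)
  | some j => if u.2 = v.2 ∧ u.1 = some j :: v.1 then -1 else 0

open Classical in
/-- the matrices of the system of the products -/
noncomputable def RR {q n s : ℕ} (x : Option (Lt s q)) (J K : Fin s → I0 q n) : ℤ :=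
  match x with
  | none => ∑ i, if ∀ l, l ≠ i → J l = K l then r0 (J i).1 (K i).1 else 0
  | some y => if ∀ l, l ≠ y.1 → J l = K l then r1 y.2 (J y.1).1 (K y.1).1 else 0

/-- the weight -/
def wtt {q n s : ℕ} (J : Fin s → I0 q n) : ℕ := ∑ i, ((J i).1.1.length + (J i).1.2)

/-- the index of the constant function `1` -/
def j0 (q n s : ℕ) : Fin s → I0 q n := fun _ => ⟨([], 0), by simp⟩

/-- PFU (from `PLG.T_IN`): the products form a graded system -/
def T_PFU : Prop := ∀ (q n s : ℕ) (c : Lt s q → ℕ), Function.Injective c → (∀ x, 1 ≤ c x) →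
  Fu c RR wtt (j0 q n s) (pf (n := n) c)

/-- SEPA: the residues separate -/
def T_SEPA : Prop := ∀ (q n s l : ℕ) (R : (Fin s → I0 q n) → ℚ), 1 ≤ l →
  (∀ J, R J ≠ 0 → wtt J = l) → (∀ x K, ∑ J, R J * (RR x J K : ℚ) = 0) → R = 0

/-- EXPA (from `PLG.T_SHUF`): the products are combinations of hyperlogarithms -/
def T_EXPA : Prop := ∀ (q n s : ℕ) (c : Lt s q → ℕ) (J : Fin s → I0 q n),
  ∃ mu : PLG.Wd (Lt s q) (s * n) → ℚ, pf c J = ∑ w, mu w • PLG.L c w.1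

/-- the integer word -/
def wd {q : ℕ} (a : Fin q → ℤ) (w : Wd q) : List ℤ := w.map fun o => o.elim 0 a

/-- VALB: values of the block functions -/
def T_VALB : Prop := ∀ (q s N h : ℕ) (a : Fin s → Fin q → ℤ) (b : Fin s → ℕ) (i : Fin s)
  (w : Wd q), (∀ j, a i j ≠ 0) → (∀ j, |a i j| ≤ (h : ℤ)) → h < b i → 8 * (b i + h) ≤ N →
  w.getLast? ≠ some none →
  Summable (fun m => |((PowerSeries.coeff m (bw (pl a b) i w) : ℚ) : ℝ)| * (1 / (N : ℝ)) ^ m) ∧
  PLG.val (bw (pl a b) i w) (1 / (N : ℝ)) = hv (wd (a i) w) (N + b i)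

/-- VAL (from VALB): values of the products -/
def T_VAL : Prop := ∀ (q n s N h : ℕ) (a : Fin s → Fin q → ℤ) (b : Fin s → ℕ)
  (J : Fin s → I0 q n), (∀ i j, a i j ≠ 0) → (∀ i j, |a i j| ≤ (h : ℤ)) → (∀ i, h < b i) →
  (∀ i, 8 * (b i + h) ≤ N) →
  PLG.val (pf (pl a b) J) (1 / (N : ℝ)) =
    ∏ i, (hv (wd (a i) (J i).1.1) (N + b i) *
      (Real.log N - Real.log ((N + b i : ℕ) : ℝ)) ^ (J i).1.2)

/-- the separation condition: letters bounded by `h`, distinct and nonzero, shifts larger than `h`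
and at distance more than `2 h` from each other -/
structure Sep {q s : ℕ} (h : ℕ) (a : Fin s → Fin q → ℤ) (b : Fin s → ℕ) : Prop where
  ne : ∀ i j, a i j ≠ 0
  inj : ∀ i, Function.Injective (a i)
  le : ∀ i j, |a i j| ≤ (h : ℤ)
  big : ∀ i, h < b i
  far : ∀ i l, i ≠ l → 2 * (h : ℤ) < |(b i : ℤ) - b l|

/-- PROD (from `PLG.T_H`, `PLG.T_COEF`, IND, PFU, SEPA, EXPA, VAL; helper8): the values of the
products are linearly independent -/
def T_PROD : Prop := ∀ q n s : ℕ, ∃ E : ℕ, 1 ≤ E ∧ ∀ (N h H : ℕ) (a : Fin s → Fin q → ℤ)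
  (b : Fin s → ℕ), Sep h a b → (∀ i, b i + h ≤ H) → 1 ≤ H →
  (E * H) ^ E ≤ N → ∀ c : (Fin s → I0 q n) → ℤ,
  ∑ J, (c J : ℝ) * ∏ i, (hv (wd (a i) (J i).1.1) (N + b i) *
      (Real.log N - Real.log ((N + b i : ℕ) : ℝ)) ^ (J i).1.2) = 0 → c = 0

/-! ## Elimination -/

/-- ELIM: multilinear elimination. `x i w * t i ^ m` stands for `L_w(1/t_i) (log t_i)^m` and `ℓ`
for `log N`. -/
def T_ELIM : Prop := ∀ q n k D : ℕ, ∃ s : ℕ, ∀ (θ : Fin k → ℂ) (ℓ : ℂ)
  (x : Fin s → Wd q → ℂ) (t : Fin s → ℂ), (∀ i, x i [] = 1) →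
  (∀ i, ∃ c : I0 q n → MvPolynomial (Fin k) ℤ, (∀ u, (c u).totalDegree ≤ D) ∧
    (∃ u, MvPolynomial.aeval θ (c u) ≠ 0) ∧
    ∑ u : I0 q n, MvPolynomial.aeval θ (c u) * x i u.1.1 * t i ^ u.1.2 = 0) →
  ∃ c : (Fin s → I0 q n) → ℤ, c ≠ 0 ∧
    ∑ J, (c J : ℂ) * ∏ i, (x i (J i).1.1 * (ℓ - t i) ^ (J i).1.2) = 0

end Pool.Agent.HYP
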