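import Pool.Agent.HYP.Targets
import Pool.Agent.PLG.VAL

set_option autoImplicit false

/-! Hyperlogarithms at `1 / t`: values of the products. -/

namespace Pool.Agent.HYP

open Finset
open scoped BigOperators

namespace VAL_

/-- absolute convergence -/
def AS (f : PowerSeries ℚ) (x : ℝ) : Prop :=
  Summable fun m => |((PowerSeries.coeff m f : ℚ) : ℝ)| * |x| ^ m

theorem as_norm {f : PowerSeries ℚ} {x : ℝ} : AS f x ↔
    Summable fun m => ‖((PowerSeries.coeff m f : ℚ) : ℝ) * x ^ m‖ := by
  have : (fun m => |((PowerSeries.coeff m f : ℚ) : ℝ)| * |x| ^ m) =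
      fun m => ‖((PowerSeries.coeff m f : ℚ) : ℝ) * x ^ m‖ := by
    funext m
    rw [norm_mul, norm_pow, Real.norm_eq_abs, Real.norm_eq_abs]
  unfold AS
  rw [this]

theorem one_term (x : ℝ) (m : ℕ) :
    ((PowerSeries.coeff m (1 : PowerSeries ℚ) : ℚ) : ℝ) * x ^ m = if m = 0 then 1 else 0 := by
  rw [PowerSeries.coeff_one]
  split_ifs with h
  · simp [h]
  · simp

theorem as_one (x : ℝ) : AS 1 x := by
  rw [as_norm]
  refine summable_of_ne_finset_zero (s := {0}) fun m hm => ?_
  rw [one_term, if_neg (by simpa using hm), norm_zero]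

theorem val_one (x : ℝ) : PLG.val 1 x = 1 := by
  unfold PLG.val
  simp_rw [one_term]
  rw [tsum_ite_eq]

theorem mul {f g : PowerSeries ℚ} {x : ℝ} (hf : AS f x) (hg : AS g x) :
    AS (f * g) x ∧ PLG.val (f * g) x = PLG.val f x * PLG.val g x := by
  have h1 := as_norm.1 hf
  have h2 := as_norm.1 hg
  have h3 := summable_norm_sum_mul_antidiagonal_of_summable_norm h1 h2
  have h4 := tsum_mul_tsum_eq_tsum_sum_antidiagonal_of_summable_norm h1 h2
  have h5 : ∀ n, ∑ kl ∈ antidiagonal n, (((PowerSeries.coeff kl.1 f : ℚ) : ℝ) * x ^ kl.1) *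
      (((PowerSeries.coeff kl.2 g : ℚ) : ℝ) * x ^ kl.2) =
      ((PowerSeries.coeff n (f * g) : ℚ) : ℝ) * x ^ n := by
    intro n
    rw [PowerSeries.coeff_mul]
    push_cast
    rw [Finset.sum_mul]
    refine Finset.sum_congr rfl fun p hp => ?_
    rw [← mem_antidiagonal.1 hp, pow_add]
    ring
  simp_rw [h5] at h3 h4
  exact ⟨as_norm.2 h3, h4.symm⟩

theorem pow {f : PowerSeries ℚ} {x : ℝ} (hf : AS f x) (n : ℕ) :
    AS (f ^ n) x ∧ PLG.val (f ^ n) x = PLG.val f x ^ n := by
  induction n with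
  | zero =>
    rw [pow_zero, pow_zero]
    exact ⟨as_one x, val_one x⟩
  | succ n ih =>
    have := mul ih.1 hf
    rw [pow_succ, pow_succ, ← ih.2]
    exact this

theorem prod {σ : Type} (S : Finset σ) (f : σ → PowerSeries ℚ) {x : ℝ}
    (hf : ∀ i ∈ S, AS (f i) x) :
    AS (∏ i ∈ S, f i) x ∧ PLG.val (∏ i ∈ S, f i) x = ∏ i ∈ S, PLG.val (f i) x := by
  classical
  induction S using Finset.induction_on with
  | empty =>
    rw [prod_empty, prod_empty]
    exact ⟨as_one x, val_one x⟩
  | insert a S ha ih =>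
    have h1 := ih fun i hi => hf i (mem_insert_of_mem hi)
    have h2 := mul (hf a (mem_insert_self _ _)) h1.1
    rw [prod_insert ha, prod_insert ha, ← h1.2]
    exact h2

end VAL_

open VAL_ in
/-- the values of the products -/
theorem p_VAL (h : T_VALB) : T_VAL := by
  intro q n s N hh a b J ha hle hb hN
  have key : ∀ i : Fin s, AS (phi (pl a b) i (J i).1) (1 / (N : ℝ)) ∧
      PLG.val (phi (pl a b) i (J i).1) (1 / (N : ℝ)) = hv (wd (a i) (J i).1.1) (N + b i) *
        (Real.log N - Real.log ((N + b i : ℕ) : ℝ)) ^ (J i).1.2 := by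
    intro i
    have hbi := hb i
    have hNi := hN i
    have hN0 : 0 < N := by omega
    have hNr : (0 : ℝ) < N := by exact_mod_cast hN0
    have hbr : (8 : ℝ) * b i ≤ N := by exact_mod_cast (by omega : 8 * b i ≤ N)
    have hx0 : (0 : ℝ) ≤ 1 / (N : ℝ) := by positivity
    obtain ⟨h1, h2⟩ := h q s N hh a b i (J i).1.1 (ha i) (hle i) (hb i) (hN i) (J i).2.2
    have h3 : AS (bw (pl a b) i (J i).1.1) (1 / (N : ℝ)) := by
      unfold AS
      rw [abs_of_nonneg hx0]
      exact h1
    have hc : ((pl a b (i, none) : ℕ) : ℝ) = b i := by simp only [pl]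
    have hlt : |1 / (N : ℝ)| * (pl a b (i, none) : ℕ) < 1 := by
      rw [abs_of_nonneg hx0, hc, one_div_mul_eq_div, div_lt_one hNr]
      nlinarith [(Nat.cast_nonneg (b i) : (0 : ℝ) ≤ (b i : ℝ))]
    have hM : (0 : ℝ) < b i := by exact_mod_cast (by omega : 0 < b i)
    have hL : lam (pl a b) i = -PLG.L (pl a b) [some (i, none)] := rfl
    have h4 : PLG.VAL_.Bdd (PLG.L (pl a b) [some (i, none)]) 1 (b i) :=
      PLG.VAL_.bdd_L (pl a b) hM (i, none) (by rw [hc])
    have h5 : AS (lam (pl a b) i) (1 / (N : ℝ)) := by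
      have := (summable_geometric_of_lt_one (by positivity)
        (by rwa [hc] at hlt : |1 / (N : ℝ)| * (b i : ℝ) < 1))
      unfold AS
      refine Summable.of_nonneg_of_le (fun m => by positivity) (fun m => ?_) this
      rw [hL, map_neg]
      push_cast
      rw [abs_neg, mul_pow]
      have h6 := h4 m
      rw [one_mul] at h6
      rw [mul_comm (|1 / (N : ℝ)| ^ m)]
      exact mul_le_mul_of_nonneg_right h6 (by positivity)
    have h6 : PLG.val (lam (pl a b) i) (1 / (N : ℝ)) =
        Real.log N - Real.log ((N + b i : ℕ) : ℝ) := by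
      have h7 : PLG.val (lam (pl a b) i) (1 / (N : ℝ)) =
          -PLG.val (PLG.L (pl a b) [some (i, none)]) (1 / (N : ℝ)) := by
        unfold PLG.val
        rw [← tsum_neg]
        refine tsum_congr fun m => ?_
        rw [hL, map_neg]
        push_cast
        ring
      rw [h7, PLG.VAL_.val_log _ _ hlt, hc]
      have h8 : 1 + (b i : ℝ) * (1 / (N : ℝ)) = ((N + b i : ℕ) : ℝ) / N := by
        push_cast
        field_simp
      rw [h8, Real.log_div (by positivity) hNr.ne']
      ring
    have h7 := pow h5 (J i).1.2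
    have h8 := mul h3 h7.1
    refine ⟨h8.1, ?_⟩
    rw [← h2, ← h6, ← h7.2]
    exact h8.2
  have := (prod univ (fun i => phi (pl a b) i (J i).1) (x := 1 / (N : ℝ))
    (fun i _ => (key i).1)).2
  unfold pf
  rw [this]
  exact Finset.prod_congr rfl fun i _ => (key i).2

end Pool.Agent.HYP
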