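import Pool.Agent.HYP.Targets
import Pool.Agent.PLG.VAL

set_option autoImplicit false

/-!
# Values of the block functions (job VALB, MP_5d33ca_ag)
-/

namespace Pool.Agent.HYP

open Finset
open scoped BigOperators
open Pool.Agent.PLG.VAL_

namespace VALB_

/-- the primitive of `c f / (1 + c z)` -/
noncomputable def Ic (c : ℚ) (f : PowerSeries ℚ) : PowerSeries ℚ := PowerSeries.mk fun n =>
  (∑ j ∈ range n, PowerSeries.coeff j f * (c * (-c) ^ (n - 1 - j))) / (n : ℚ)

lemma bdd_I {c : ℚ} {f : PowerSeries ℚ} {B M : ℝ} (hf : Bdd f B M)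
    (hM : 0 < M) (hc : |(c : ℝ)| ≤ M) : Bdd (Ic c f) B M := by
  intro n
  have hB : 0 ≤ B := by
    have := (abs_nonneg _).trans (hf 0)
    simpa using this
  simp only [Ic, PowerSeries.coeff_mk]
  push_cast
  rw [abs_div]
  rcases Nat.eq_zero_or_pos n with h | h
  · subst h
    simp only [Nat.cast_zero, abs_zero, div_zero]
    positivity
  · have h1 : (0 : ℝ) < |(n : ℝ)| := by
      rw [abs_of_nonneg (by positivity)]
      exact_mod_cast h
    rw [div_le_iff₀ h1, abs_of_nonneg (by positivity : (0 : ℝ) ≤ (n : ℝ))]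
    calc |∑ j ∈ range n, ((PowerSeries.coeff j f : ℚ) : ℝ) * ((c : ℝ) * (-(c : ℝ)) ^ (n - 1 - j))|
        ≤ ∑ j ∈ range n,
          |((PowerSeries.coeff j f : ℚ) : ℝ) * ((c : ℝ) * (-(c : ℝ)) ^ (n - 1 - j))| :=
          abs_sum_le_sum_abs _ _
      _ ≤ ∑ _j ∈ range n, B * M ^ n := by
          refine sum_le_sum fun j hj => ?_
          have hj' := mem_range.1 hj
          rw [abs_mul, abs_mul, abs_pow, abs_neg]
          calc |((PowerSeries.coeff j f : ℚ) : ℝ)| * (|(c : ℝ)| * |(c : ℝ)| ^ (n - 1 - j))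
              ≤ (B * M ^ j) * (M * M ^ (n - 1 - j)) := by
                gcongr
                exact hf j
            _ = B * M ^ n := by
                have : M ^ n = M ^ j * (M * M ^ (n - 1 - j)) := by
                  rw [← pow_succ', ← pow_add]
                  congr 1
                  omega
                rw [this]
                ring
      _ = B * M ^ n * n := by
          rw [sum_const, card_range, nsmul_eq_mul]
          ring

/-- `(1 + c x) (Ic f)' = c f` -/
lemma eq_I {c : ℚ} {f : PowerSeries ℚ} {B M x : ℝ} (hf : Bdd f B M)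
    (hM : 0 < M) (hx : |x| * M < 1) (hc : |(c : ℝ)| ≤ M) :
    (1 + (c : ℝ) * x) * dv (Ic c f) x = c * PLG.val f x := by
  have hs := (deriv_summ (bdd_I hf hM hc) hM hx).1
  set S : ℕ → ℝ := fun n => ∑ j ∈ range n,
    ((PowerSeries.coeff j f : ℚ) : ℝ) * ((c : ℝ) * (-(c : ℝ)) ^ (n - 1 - j)) with hS
  have hterm : ∀ n : ℕ, (n : ℝ) * ((PowerSeries.coeff n (Ic c f) : ℚ) : ℝ) * x ^ (n - 1) =
      S n * x ^ (n - 1) := by
    intro n
    simp only [Ic, PowerSeries.coeff_mk]
    push_cast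
    rcases Nat.eq_zero_or_pos n with h | h
    · subst h
      simp [hS]
    · have hk : (n : ℝ) ≠ 0 := by
        have : (0 : ℝ) < n := by exact_mod_cast h
        exact this.ne'
      rw [mul_div_cancel₀ _ hk]
  have hrec : ∀ n, S (n + 1) + c * S n = c * ((PowerSeries.coeff n f : ℚ) : ℝ) := by
    intro n
    simp only [hS]
    rw [sum_range_succ, mul_sum]
    have h1 : ∑ j ∈ range n, ((PowerSeries.coeff j f : ℚ) : ℝ) *
        ((c : ℝ) * (-(c : ℝ)) ^ (n + 1 - 1 - j)) = - ∑ j ∈ range n, (c : ℝ) *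
        (((PowerSeries.coeff j f : ℚ) : ℝ) * ((c : ℝ) * (-(c : ℝ)) ^ (n - 1 - j))) := by
      rw [← sum_neg_distrib]
      refine sum_congr rfl fun j hj => ?_
      have hj' := mem_range.1 hj
      have : n + 1 - 1 - j = (n - 1 - j) + 1 := by omega
      rw [this, pow_succ]
      ring
    rw [h1]
    have h2 : n + 1 - 1 - n = 0 := by omega
    rw [h2, pow_zero]
    ring
  have hS0 : S 0 = 0 := by simp [hS]
  simp_rw [hterm] at hs
  have hs1 : Summable fun n : ℕ => S (n + 1) * x ^ n := by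
    have := (summable_nat_add_iff 1).2 hs
    simpa using this
  have hD : dv (Ic c f) x = ∑' n : ℕ, S (n + 1) * x ^ n := by
    unfold dv
    simp_rw [hterm]
    rw [hs.tsum_eq_zero_add]
    simp [hS0]
  have hs2 : Summable fun n : ℕ => S n * x ^ n := by
    rw [← summable_nat_add_iff 1]
    have := hs1.mul_right x
    refine this.congr fun n => ?_
    rw [pow_succ]
    ring
  have hxD : x * ∑' n : ℕ, S (n + 1) * x ^ n = ∑' n : ℕ, S n * x ^ n := by
    rw [hs2.tsum_eq_zero_add, hS0, zero_mul, zero_add, ← tsum_mul_left]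
    refine tsum_congr fun n => ?_
    rw [pow_succ]
    ring
  rw [hD]
  calc (1 + (c : ℝ) * x) * ∑' n : ℕ, S (n + 1) * x ^ n
      = ∑' n : ℕ, S (n + 1) * x ^ n + c * (x * ∑' n : ℕ, S (n + 1) * x ^ n) := by ring
    _ = ∑' n : ℕ, S (n + 1) * x ^ n + ∑' n : ℕ, c * (S n * x ^ n) := by
        rw [hxD, tsum_mul_left]
    _ = ∑' n : ℕ, (S (n + 1) * x ^ n + c * (S n * x ^ n)) :=
        (hs1.tsum_add (hs2.mul_left _)).symm
    _ = ∑' n : ℕ, c * (((PowerSeries.coeff n f : ℚ) : ℝ) * x ^ n) := by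
        refine tsum_congr fun n => ?_
        rw [← mul_assoc, ← add_mul, hrec, mul_assoc]
    _ = c * PLG.val f x := by
        rw [tsum_mul_left]
        rfl

lemma In_some {ι : Type} (c : ι → ℕ) (x : ι) (f : PowerSeries ℚ) :
    PLG.In c (some x) f = Ic (c x : ℚ) f := rfl

lemma coeff_zero_In {ι : Type} (c : ι → ℕ) (x : Option ι) (f : PowerSeries ℚ) :
    PowerSeries.coeff 0 (PLG.In c x f) = 0 := by
  cases x <;> simp [PLG.In]

lemma coeff_zero_Ic (c : ℚ) (f : PowerSeries ℚ) : PowerSeries.coeff 0 (Ic c f) = 0 := by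
  simp [Ic]

lemma hl_zero {ι : Type} (c : ι → ℕ) (w : List ℤ) : hl (0 :: w) = PLG.In c none (hl w) := by
  ext n
  simp [hl, PLG.In]

lemma hl_ne {a : ℤ} (ha : a ≠ 0) (w : List ℤ) : hl (a :: w) = - Ic (-(a : ℚ)) (hl w) := by
  ext n
  simp only [hl, Ic, PowerSeries.coeff_mk, if_neg ha, map_neg, neg_neg]
  rw [← neg_div]
  congr 1
  rw [← sum_neg_distrib]
  refine sum_congr rfl fun j hj => ?_
  have hj' := mem_range.1 hj
  have : n - j = (n - 1 - j) + 1 := by omega
  rw [this, pow_succ]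
  ring

lemma bdd_neg {f : PowerSeries ℚ} {B M : ℝ} (hf : Bdd f B M) : Bdd (-f) B M := by
  intro n
  rw [map_neg, Rat.cast_neg, abs_neg]
  exact hf n

lemma val_neg (f : PowerSeries ℚ) (x : ℝ) : PLG.val (-f) x = - PLG.val f x := by
  unfold PLG.val
  rw [← tsum_neg]
  refine tsum_congr fun n => ?_
  rw [map_neg, Rat.cast_neg, neg_mul]

lemma dv_neg (f : PowerSeries ℚ) (x : ℝ) : dv (-f) x = - dv f x := by
  unfold dv
  rw [← tsum_neg]
  refine tsum_congr fun n => ?_
  rw [map_neg, Rat.cast_neg]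
  ring

lemma val_one (x : ℝ) : PLG.val 1 x = 1 := by
  unfold PLG.val
  rw [tsum_eq_single 0]
  · simp
  · intro n hn
    rw [PowerSeries.coeff_one, if_neg hn]
    simp

/-- the two functions agree if they have the same derivative -/
lemma agree {f g : PowerSeries ℚ} {B B' M X b : ℝ} (hf : Bdd f B M) (hg : Bdd g B' M)
    (hM : 0 < M) (hX : X * M < 1) (hb : 0 ≤ b) (hf0 : PowerSeries.coeff 0 f = 0)
    (hg0 : PowerSeries.coeff 0 g = 0)
    (hder : ∀ t, 0 < t → t ≤ X → dv f t = dv g (t / (1 + b * t)) * (1 / (1 + b * t) ^ 2)) :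
    ∀ z, 0 ≤ z → z ≤ X → PLG.val f z = PLG.val g (z / (1 + b * z)) := by
  intro z h0 h1
  rcases h0.eq_or_lt with h | hpos
  · subst h
    rw [zero_div, val_zero hf0, val_zero hg0]
  have hzM : ∀ t, 0 ≤ t → t ≤ X → |t| * M < 1 := by
    intro t ht0 ht1
    rw [abs_of_nonneg ht0]
    exact (mul_le_mul_of_nonneg_right ht1 hM.le).trans_lt hX
  have huM : ∀ t, 0 ≤ t → t ≤ X → |t / (1 + b * t)| * M < 1 := by
    intro t ht0 ht1
    have h2 : 1 ≤ 1 + b * t := by nlinarith [mul_nonneg hb ht0]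
    have h3 : t / (1 + b * t) ≤ t := div_le_self ht0 h2
    rw [abs_of_nonneg (by positivity)]
    have := hzM t ht0 ht1
    rw [abs_of_nonneg ht0] at this
    exact (mul_le_mul_of_nonneg_right h3 hM.le).trans_lt this
  set D : ℝ → ℝ := fun t => PLG.val f t - PLG.val g (t / (1 + b * t)) with hD
  have hderD : ∀ t, 0 ≤ t → t ≤ X → HasDerivAt D
      (dv f t - dv g (t / (1 + b * t)) * (1 / (1 + b * t) ^ 2)) t := by
    intro t ht0 ht1
    have h2 : 1 ≤ 1 + b * t := by nlinarith [mul_nonneg hb ht0]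
    have e1 := (deriv_summ hf hM (hzM t ht0 ht1)).2
    have e3 := (deriv_summ hg hM (huM t ht0 ht1)).2
    have e4 : HasDerivAt (fun t : ℝ => t / (1 + b * t)) (1 / (1 + b * t) ^ 2) t := by
      have f2 : HasDerivAt (fun t : ℝ => 1 + b * t) b t := by
        simpa using ((hasDerivAt_id t).const_mul b).const_add 1
      refine ((hasDerivAt_id t).div f2 (by linarith)).congr_deriv ?_
      congr 1
      simp only [id]
      ring
    exact e1.sub (HasDerivAt.comp (h₂ := PLG.val g) (h := fun t => t / (1 + b * t)) t e3 e4)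
  have hder0 : ∀ t, 0 < t → t ≤ X → HasDerivAt D 0 t := by
    intro t ht0 ht1
    refine (hderD t ht0.le ht1).congr_deriv ?_
    rw [hder t ht0 ht1, sub_self]
  have hcont : ContinuousOn D (Set.Icc 0 z) := fun t ht =>
    (hderD t ht.1 (ht.2.trans h1)).continuousAt.continuousWithinAt
  obtain ⟨t, ht, hts⟩ := exists_hasDerivAt_eq_slope D (fun _ => 0) hpos hcont
    (fun t ht => hder0 t ht.1 (ht.2.le.trans h1))
  have hD0 : D 0 = 0 := by
    simp only [hD]
    rw [zero_div, val_zero hf0, val_zero hg0, sub_zero]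
  rw [hD0, sub_zero, sub_zero, eq_comm, div_eq_zero_iff] at hts
  rcases hts with h | h
  · simp only [hD] at h
    linarith
  · exact absurd h hpos.ne'

lemma dv_sub {f g : PowerSeries ℚ} {B M B' x : ℝ} (hf : Bdd f B M) (hg : Bdd g B' M)
    (hM : 0 < M) (hx : |x| * M < 1) : dv (f - g) x = dv f x - dv g x := by
  unfold dv
  rw [← (deriv_summ hf hM hx).1.tsum_sub (deriv_summ hg hM hx).1]
  refine tsum_congr fun n => ?_
  rw [map_sub]
  push_cast
  ring

section

variable {q s : ℕ} (c : Lt s q → ℕ) (i : Fin s)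

lemma bw_bdd {M : ℝ} (hM : 0 < M) (hc : ∀ o, (c (i, o) : ℝ) ≤ M) :
    ∀ w : Wd q, ∃ B, Bdd (bw c i w) B M
  | [] => ⟨1, bdd_one hM⟩
  | none :: w => by
      obtain ⟨B, hB⟩ := bw_bdd hM hc w
      exact ⟨B + B, bdd_sub (bdd_none c hB hM) (bdd_some c hB hM _ (hc _))⟩
  | some j :: w => by
      obtain ⟨B, hB⟩ := bw_bdd hM hc w
      exact ⟨B + B, bdd_sub (bdd_some c hB hM _ (hc _)) (bdd_some c hB hM _ (hc _))⟩

lemma bw_zero {w : Wd q} (hw : w ≠ []) : PowerSeries.coeff 0 (bw c i w) = 0 := by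
  rcases w with _ | ⟨_ | j, w⟩
  · exact absurd rfl hw
  · simp only [bw]
    rw [map_sub, coeff_zero_In, coeff_zero_In, sub_zero]
  · simp only [bw]
    rw [map_sub, coeff_zero_In, coeff_zero_In, sub_zero]

include c in
lemma hl_bdd {M : ℝ} (hM : 0 < M) (a : Fin q → ℤ) (ha : ∀ j, |(a j : ℝ)| ≤ M)
    (ha0 : ∀ j, a j ≠ 0) : ∀ w : Wd q, ∃ B, Bdd (hl (wd a w)) B M
  | [] => ⟨1, bdd_one hM⟩
  | none :: w => by
      obtain ⟨B, hB⟩ := hl_bdd hM a ha ha0 w
      refine ⟨B, ?_⟩
      have : hl (wd a (none :: w)) = PLG.In c none (hl (wd a w)) := hl_zero c (wd a w)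
      rw [this]
      exact bdd_none c hB hM
  | some j :: w => by
      obtain ⟨B, hB⟩ := hl_bdd hM a ha ha0 w
      refine ⟨B, ?_⟩
      have : hl (wd a (some j :: w)) = - Ic (-(a j : ℚ)) (hl (wd a w)) := hl_ne (ha0 j) (wd a w)
      rw [this]
      refine bdd_neg (bdd_I hB hM ?_)
      push_cast
      rw [abs_neg]
      exact ha j

lemma last_cons {o : Option (Fin q)} {w : Wd q} (h : (o :: w).getLast? ≠ some none) :
    w.getLast? ≠ some none := by
  cases w with
  | nil => simp
  | cons x l => simpa using h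

lemma last_none {w : Wd q} (h : (none :: w).getLast? ≠ some none) : w ≠ [] := by
  rintro rfl
  simp at h

/-- the main identity -/
lemma main (a : Fin q → ℤ) {M X b : ℝ} (hM : 0 < M) (hc : ∀ o, (c (i, o) : ℝ) ≤ M)
    (hb : (c (i, none) : ℝ) = b) (hba : ∀ j, (c (i, some j) : ℝ) = b - a j)
    (ha : ∀ j, |(a j : ℝ)| ≤ M) (ha0 : ∀ j, a j ≠ 0) (hX : X * M < 1) :
    ∀ w : Wd q, w.getLast? ≠ some none → ∀ z, 0 ≤ z → z ≤ X →
      PLG.val (bw c i w) z = PLG.val (hl (wd a w)) (z / (1 + b * z)) := by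
  have hb0 : 0 ≤ b := by rw [← hb]; positivity
  have hzM : ∀ t, 0 ≤ t → t ≤ X → |t| * M < 1 := by
    intro t ht0 ht1
    rw [abs_of_nonneg ht0]
    exact (mul_le_mul_of_nonneg_right ht1 hM.le).trans_lt hX
  have huM : ∀ t, 0 ≤ t → t ≤ X → |t / (1 + b * t)| * M < 1 := by
    intro t ht0 ht1
    have h2 : 1 ≤ 1 + b * t := by nlinarith [mul_nonneg hb0 ht0]
    have h3 : t / (1 + b * t) ≤ t := div_le_self ht0 h2
    rw [abs_of_nonneg (by positivity)]
    have := hzM t ht0 ht1
    rw [abs_of_nonneg ht0] at this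
    exact (mul_le_mul_of_nonneg_right h3 hM.le).trans_lt this
  intro w
  induction w with
  | nil =>
    intro _ z _ _
    change PLG.val 1 z = PLG.val 1 _
    rw [val_one, val_one]
  | cons o w ih =>
    intro hw z h0 h1
    have ihw := ih (last_cons hw)
    obtain ⟨B, hB⟩ := bw_bdd c i hM hc w
    obtain ⟨B', hB'⟩ := hl_bdd c hM a ha ha0 w
    rcases o with _ | j
    · have hw0 : w ≠ [] := last_none hw
      have e1 : bw c i (none :: w) =
          PLG.In c none (bw c i w) - PLG.In c (some (i, none)) (bw c i w) := rfl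
      have e2 : hl (wd a (none :: w)) = PLG.In c none (hl (wd a w)) := hl_zero c (wd a w)
      have b1 := bdd_none c hB hM
      have b2 := bdd_some c hB hM (i, none) (hc _)
      rw [e1, e2]
      refine agree (bdd_sub b1 b2) (bdd_none c hB' hM) hM hX hb0
        (by rw [map_sub, coeff_zero_In, coeff_zero_In, sub_zero]) (coeff_zero_In _ _ _)
        (fun t ht0 ht1 => ?_) z h0 h1
      have h2 : 1 ≤ 1 + b * t := by nlinarith [mul_nonneg hb0 ht0.le]
      have h2' : 1 + b * t ≠ 0 := by linarith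
      rw [dv_sub b1 b2 hM (hzM t ht0.le ht1)]
      have g1 := eq_none c hB hM (hzM t ht0.le ht1) (bw_zero c i hw0)
      have g2 := eq_some c hB hM (hzM t ht0.le ht1) (i, none) (hc _)
      have hl0 : PowerSeries.coeff 0 (hl (wd a w)) = 0 := by
        rcases w with _ | ⟨o', w⟩
        · exact absurd rfl hw0
        · change PowerSeries.coeff 0 (hl (_ :: wd a w)) = 0
          simp [hl]
      have g3 := eq_none c hB' hM (huM t ht0.le ht1) hl0
      rw [← ihw t ht0.le ht1] at g3
      rw [hb] at g2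
      set V := PLG.val (bw c i w) t
      set d1 := dv (PLG.In c none (bw c i w)) t
      set d2 := dv (PLG.In c (some (i, none)) (bw c i w)) t
      set d3 := dv (PLG.In c none (hl (wd a w))) (t / (1 + b * t))
      have k1 : d1 = V / t := by rw [← g1]; field_simp
      have k2 : d2 = b * V / (1 + b * t) := by rw [← g2]; field_simp
      have k3 : d3 = V * (1 + b * t) / t := by rw [← g3]; field_simp
      rw [k1, k2, k3]
      field_simp
      ring
    · have e1 : bw c i (some j :: w) =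
          PLG.In c (some (i, none)) (bw c i w) - PLG.In c (some (i, some j)) (bw c i w) := rfl
      have e2 : hl (wd a (some j :: w)) = - Ic (-(a j : ℚ)) (hl (wd a w)) :=
        hl_ne (ha0 j) (wd a w)
      have haj : |((-(a j : ℚ) : ℚ) : ℝ)| ≤ M := by
        push_cast
        rw [abs_neg]
        exact ha j
      have b1 := bdd_some c hB hM (i, none) (hc _)
      have b2 := bdd_some c hB hM (i, some j) (hc _)
      rw [e1, e2]
      refine agree (bdd_sub b1 b2) (bdd_neg (bdd_I hB' hM haj)) hM hX hb0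
        (by rw [map_sub, coeff_zero_In, coeff_zero_In, sub_zero])
        (by rw [map_neg, coeff_zero_Ic, neg_zero])
        (fun t ht0 ht1 => ?_) z h0 h1
      have h2 : 1 ≤ 1 + b * t := by nlinarith [mul_nonneg hb0 ht0.le]
      have h2' : 1 + b * t ≠ 0 := by linarith
      have hba0 : 0 ≤ b - a j := by rw [← hba j]; positivity
      have h3 : 1 ≤ 1 + (b - a j) * t := by nlinarith [mul_nonneg hba0 ht0.le]
      have h3' : 1 + (b - a j) * t ≠ 0 := by linarith
      rw [dv_sub b1 b2 hM (hzM t ht0.le ht1), dv_neg]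
      have g1 := eq_some c hB hM (hzM t ht0.le ht1) (i, none) (hc _)
      have g2 := eq_some c hB hM (hzM t ht0.le ht1) (i, some j) (hc _)
      have g3 := eq_I hB' hM (huM t ht0.le ht1) haj
      rw [← ihw t ht0.le ht1] at g3
      rw [hb] at g1
      rw [hba j] at g2
      push_cast at g3
      set V := PLG.val (bw c i w) t
      set d1 := dv (PLG.In c (some (i, none)) (bw c i w)) t
      set d2 := dv (PLG.In c (some (i, some j)) (bw c i w)) t
      set d3 := dv (Ic (-(a j : ℚ)) (hl (wd a w))) (t / (1 + b * t))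
      have k1 : d1 = b * V / (1 + b * t) := by rw [← g1]; field_simp
      have k2 : d2 = (b - a j) * V / (1 + (b - a j) * t) := by rw [← g2]; field_simp
      have h4 : 1 + -(a j : ℝ) * (t / (1 + b * t)) = (1 + (b - a j) * t) / (1 + b * t) := by
        field_simp
        ring
      rw [h4] at g3
      have k3 : d3 = -(a j : ℝ) * V * (1 + b * t) / (1 + (b - a j) * t) := by
        rw [← g3]; field_simp
      rw [k1, k2, k3]
      field_simp
      ring

end

end VALB_

open VALB_

theorem p_VALB : T_VALB := by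
  intro q s N h a b i w ha0 hah hb hN hw
  have hbr : (h : ℝ) < b i := by exact_mod_cast hb
  have hh0 : (0 : ℝ) ≤ h := by positivity
  have hNr : 8 * ((b i : ℝ) + h) ≤ N := by exact_mod_cast hN
  have hN0 : (0 : ℝ) < N := by linarith
  have hM : (0 : ℝ) < (b i : ℝ) + h := by linarith
  have hX0 : (0 : ℝ) ≤ 1 / (N : ℝ) := by positivity
  have hX : (1 / (N : ℝ)) * ((b i : ℝ) + h) < 1 := by
    rw [one_div_mul_eq_div, div_lt_one hN0]
    linarith
  have har : ∀ j, |(a i j : ℝ)| ≤ h := by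
    intro j
    exact_mod_cast hah j
  have hba : ∀ j, ((pl a b (i, some j) : ℕ) : ℝ) = b i - a i j := by
    intro j
    have h3 : (0 : ℤ) ≤ (b i : ℤ) - a i j := by
      have h4 := le_abs_self (a i j)
      have h5 := hah j
      omega
    simp only [pl]
    have h4 : ((((b i : ℤ) - a i j).toNat : ℤ) : ℝ) = (((b i : ℤ) - a i j : ℤ) : ℝ) := by
      rw [Int.toNat_of_nonneg h3]
    rw [Int.cast_natCast] at h4
    rw [h4]
    push_cast
    ring
  have hc : ∀ o, ((pl a b (i, o) : ℕ) : ℝ) ≤ (b i : ℝ) + h := by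
    rintro (_ | j)
    · simp only [pl]
      linarith
    · rw [hba]
      have h2 := neg_abs_le (a i j : ℝ)
      have h3 := har j
      linarith
  obtain ⟨B, hB⟩ := bw_bdd (pl a b) i hM hc w
  refine ⟨?_, ?_⟩
  · have h1 := (summ hB hM (x := 1 / (N : ℝ)) (by rwa [abs_of_nonneg hX0])).abs
    refine h1.congr fun m => ?_
    rw [abs_mul, abs_pow, abs_of_nonneg hX0]
  · rw [main (pl a b) i (a i) (M := (b i : ℝ) + h) (X := 1 / (N : ℝ)) (b := (b i : ℝ)) hM hc rfl
      hba (fun j => (har j).trans (by linarith)) ha0 hX w hw (1 / (N : ℝ)) hX0 le_rfl]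
    have e : 1 / (N : ℝ) / (1 + b i * (1 / (N : ℝ))) = 1 / ((N + b i : ℕ) : ℝ) := by
      push_cast
      field_simp
    rw [e]
    rfl

end Pool.Agent.HYP
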